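import Pool.Agent.K1H36.TS.Inst

/-!
# Zero triangles in rectangles
-/

set_option autoImplicit false

open Finset

namespace Pool.Agent.K1H36.TB

open Pool.Agent.K1H36.TS

variable {l : ℕ} [Fact l.Prime]

/-- The variables. -/
abbrev Ve (l : ℕ) := Bool × ZMod l × ZMod l

/-- Cut and paste. -/
def mix (B : Finset (Ve l)) (z z' : Ve l → Vec l) (v : Ve l) : Vec l := if v ∈ B then z' v else z v

/-- The number of the elements with a given value. -/
def num (C : Finset (Ve l → Vec l)) (v : Ve l) (a : Vec l) : ℝ :=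
  ((C.filter fun z => z v = a).card : ℝ)

theorem num_nonneg (C : Finset (Ve l → Vec l)) (v : Ve l) (a : Vec l) : 0 ≤ num C v a :=
  Nat.cast_nonneg _

theorem sum_num (C : Finset (Ve l → Vec l)) (v : Ve l) : ∑ a, num C v a = C.card := by
  unfold num
  have h := Finset.card_eq_sum_card_fiberwise (f := fun z : Ve l → Vec l => z v) (s := C)
    (t := univ) (fun _ _ => Finset.mem_coe.mpr (Finset.mem_univ _))
  exact_mod_cast h.symm

/-- The values of two variables are independent. -/
theorem indep (C : Finset (Ve l → Vec l)) (B : Finset (Ve l))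
    (hC : ∀ z ∈ C, ∀ z' ∈ C, mix B z z' ∈ C) {v w : Ve l} (hv : v ∉ B) (hw : w ∈ B)
    (a b : Vec l) : (C.card : ℝ) * ((C.filter fun z => z v = a ∧ z w = b).card : ℝ) =
      num C v a * num C w b := by
  unfold num
  have h : (C ×ˢ (C.filter fun z => z v = a ∧ z w = b)).card =
      ((C.filter fun z => z v = a) ×ˢ (C.filter fun z => z w = b)).card := by
    have hmm : ∀ x : (Ve l → Vec l) × (Ve l → Vec l),
        (mix B (mix B x.1 x.2) (mix B x.2 x.1), mix B (mix B x.2 x.1) (mix B x.1 x.2)) = x := by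
      intro x
      refine Prod.ext (funext fun u => ?_) (funext fun u => ?_)
      · simp only [mix]
        by_cases hu : u ∈ B
        · simp only [hu, if_true]
        · simp only [hu, if_false]
      · simp only [mix]
        by_cases hu : u ∈ B
        · simp only [hu, if_true]
        · simp only [hu, if_false]
    refine Finset.card_nbij' (fun x => (mix B x.2 x.1, mix B x.1 x.2))
      (fun x => (mix B x.2 x.1, mix B x.1 x.2)) ?_ ?_ ?_ ?_
    · intro x hx
      rw [Finset.mem_coe, Finset.mem_product, Finset.mem_filter] at hx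
      rw [Finset.mem_coe, Finset.mem_product, Finset.mem_filter, Finset.mem_filter]
      refine ⟨⟨hC _ hx.2.1 _ hx.1, ?_⟩, ⟨hC _ hx.1 _ hx.2.1, ?_⟩⟩
      · simp only [mix, if_neg hv]
        exact hx.2.2.1
      · simp only [mix, if_pos hw]
        exact hx.2.2.2
    · intro x hx
      rw [Finset.mem_coe, Finset.mem_product, Finset.mem_filter, Finset.mem_filter] at hx
      rw [Finset.mem_coe, Finset.mem_product, Finset.mem_filter]
      refine ⟨hC _ hx.2.1 _ hx.1.1, hC _ hx.1.1 _ hx.2.1, ?_, ?_⟩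
      · simp only [mix, if_neg hv]
        exact hx.1.2
      · simp only [mix, if_pos hw]
        exact hx.2.2
    · intro x _
      refine Prod.ext (funext fun u => ?_) (funext fun u => ?_)
      · simp only [mix]
        by_cases hu : u ∈ B
        · simp only [hu, if_true]
        · simp only [hu, if_false]
      · simp only [mix]
        by_cases hu : u ∈ B
        · simp only [hu, if_true]
        · simp only [hu, if_false]
    · intro x _
      refine Prod.ext (funext fun u => ?_) (funext fun u => ?_)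
      · simp only [mix]
        by_cases hu : u ∈ B
        · simp only [hu, if_true]
        · simp only [hu, if_false]
      · simp only [mix]
        by_cases hu : u ∈ B
        · simp only [hu, if_true]
        · simp only [hu, if_false]
  rw [Finset.card_product, Finset.card_product] at h
  exact_mod_cast h

theorem zero_count (C : Finset (Ve l → Vec l)) (B : Finset (Ve l))
    (hC : ∀ z ∈ C, ∀ z' ∈ C, mix B z z' ∈ C) {v w : Ve l} (hv : v ∉ B) (hw : w ∈ B)
    (c : Vec l) : (C.card : ℝ) * ((C.filter fun z => z v + z w = c).card : ℝ) =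
      ∑ a, num C v a * num C w (c - a) := by
  have h : ((C.filter fun z => z v + z w = c).card : ℝ) =
      ∑ a, ((C.filter fun z => z v = a ∧ z w = c - a).card : ℝ) := by
    have h1 := Finset.card_eq_sum_card_fiberwise (f := fun z : Ve l → Vec l => z v)
      (s := C.filter fun z => z v + z w = c) (t := univ)
      (fun _ _ => Finset.mem_coe.mpr (Finset.mem_univ _))
    rw [h1]
    push_cast
    refine Finset.sum_congr rfl fun a _ => ?_
    congr 2
    ext z
    rw [Finset.mem_filter, Finset.mem_filter, Finset.mem_filter]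
    constructor
    · rintro ⟨⟨h1, h2⟩, h3⟩
      refine ⟨h1, h3, ?_⟩
      rw [← h2, h3]
      abel
    · rintro ⟨h1, h2, h3⟩
      refine ⟨⟨h1, ?_⟩, h2⟩
      rw [h2, h3]
      abel
  rw [h, Finset.mul_sum]
  exact Finset.sum_congr rfl fun a _ => indep C B hC hv hw a (c - a)

/-- The values which are not taken too often. -/
noncomputable def lt (τ : ℝ) (C : Finset (Ve l → Vec l)) (v : Ve l) (a : Vec l) : ℝ :=
  if num C v a ≤ τ * C.card then num C v a else 0

theorem lt_nonneg (τ : ℝ) (C : Finset (Ve l → Vec l)) (v : Ve l) (a : Vec l) : 0 ≤ lt τ C v a := by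
  unfold lt
  split_ifs
  · exact num_nonneg _ _ _
  · exact le_refl _

theorem lt_le (τ : ℝ) (C : Finset (Ve l → Vec l)) (v : Ve l) (a : Vec l) :
    lt τ C v a ≤ num C v a := by
  unfold lt
  split_ifs
  · exact le_refl _
  · exact num_nonneg _ _ _

theorem lt_le' {τ : ℝ} (hτ : 0 ≤ τ) (C : Finset (Ve l → Vec l)) (v : Ve l) (a : Vec l) :
    lt τ C v a ≤ τ * C.card := by
  unfold lt
  split_ifs with h
  · exact h
  · exact mul_nonneg hτ (Nat.cast_nonneg _)

/-- The number of the elements whose value is not taken too often. -/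
noncomputable def mass (τ : ℝ) (C : Finset (Ve l → Vec l)) (v : Ve l) : ℝ := ∑ a, lt τ C v a

theorem mass_nonneg (τ : ℝ) (C : Finset (Ve l → Vec l)) (v : Ve l) : 0 ≤ mass τ C v :=
  Finset.sum_nonneg fun _ _ => lt_nonneg _ _ _ _

theorem mass_le (τ : ℝ) (C : Finset (Ve l → Vec l)) (v : Ve l) : mass τ C v ≤ C.card := by
  rw [← sum_num C v]
  exact Finset.sum_le_sum fun a _ => lt_le _ _ _ _

/-- **One bucket.** -/
theorem bucket {τ U : ℝ} (hτ : 0 ≤ τ) (hU : 0 ≤ U) (C : Finset (Ve l → Vec l)) (B : Finset (Ve l))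
    (hC : ∀ z ∈ C, ∀ z' ∈ C, mix B z z' ∈ C) (q : ZMod l) (u u' : ZMod l → ℝ)
    (hu : ∀ p, 0 ≤ u p ∧ u p ≤ U) (hu' : ∀ p, 0 ≤ u' p ∧ u' p ≤ U)
    (huB : ∀ p, u p ≠ 0 → (false, q, p) ∉ B) (huB' : ∀ t, u' t ≠ 0 → (true, q, t) ∈ B) :
    (∑ p, u p * mass τ C (false, q, p)) * (∑ t, u' t * mass τ C (true, q, t)) / (l : ℝ) ^ 4 -
      2 * √ (l : ℝ) * (l * U ^ 2 * τ * (C.card : ℝ) ^ 2) ≤
    (C.card : ℝ) * ∑ p, ∑ t, u p * u' t *
      ((C.filter fun z => z (false, q, p) + z (true, q, t) = tgt p t).card : ℝ) := by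
  have hlpos : (0 : ℝ) < l := by exact_mod_cast (Fact.out : l.Prime).pos
  set f : ZMod l → Vec l → ℝ := fun p a => u p * lt τ C (false, q, p) a with hf
  set g : ZMod l → Vec l → ℝ := fun t a => u' t * lt τ C (true, q, t) a with hg
  have hm := (abs_le.mp (mixing f g)).1
  -- the sum
  have h1 : ∑ p, ∑ t, ∑ x, f p x * g t (tgt p t - x) ≤ (C.card : ℝ) * ∑ p, ∑ t, u p * u' t *
      ((C.filter fun z => z (false, q, p) + z (true, q, t) = tgt p t).card : ℝ) := by
    rw [Finset.mul_sum]
    refine Finset.sum_le_sum fun p _ => ?_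
    rw [Finset.mul_sum]
    refine Finset.sum_le_sum fun t _ => ?_
    by_cases hp : u p = 0
    · rw [hf]
      simp [hp]
    · by_cases ht : u' t = 0
      · rw [hg]
        simp [ht]
      · have e := zero_count C B hC (huB p hp) (huB' t ht) (tgt p t)
        calc ∑ x, f p x * g t (tgt p t - x)
            = u p * u' t * ∑ x, lt τ C (false, q, p) x * lt τ C (true, q, t) (tgt p t - x) := by
              rw [Finset.mul_sum]
              refine Finset.sum_congr rfl fun x _ => ?_
              rw [hf, hg]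
              ring
          _ ≤ u p * u' t * ∑ x, num C (false, q, p) x * num C (true, q, t) (tgt p t - x) := by
              refine mul_le_mul_of_nonneg_left ?_ (mul_nonneg (hu p).1 (hu' t).1)
              refine Finset.sum_le_sum fun x _ => ?_
              exact mul_le_mul (lt_le _ _ _ _) (lt_le _ _ _ _) (lt_nonneg _ _ _ _)
                (num_nonneg _ _ _)
          _ = _ := by
              rw [← e]
              ring
  -- the norms
  have hsq : ∀ (w : ZMod l → ℝ) (i : Bool), (∀ p, 0 ≤ w p ∧ w p ≤ U) →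
      ∑ p, ∑ x, (w p * lt τ C (i, q, p) x) ^ 2 ≤ l * U ^ 2 * τ * (C.card : ℝ) ^ 2 := by
    intro w i hw
    have h2 : ∀ p, ∑ x, (w p * lt τ C (i, q, p) x) ^ 2 ≤ U ^ 2 * τ * (C.card : ℝ) ^ 2 := by
      intro p
      calc ∑ x, (w p * lt τ C (i, q, p) x) ^ 2
          ≤ ∑ x, U ^ 2 * ((τ * C.card) * num C (i, q, p) x) := by
            refine Finset.sum_le_sum fun x _ => ?_
            rw [mul_pow]
            refine mul_le_mul (pow_le_pow_left₀ (hw p).1 (hw p).2 2) ?_ (sq_nonneg _)
              (sq_nonneg _)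
            rw [sq]
            exact mul_le_mul (lt_le' hτ _ _ _) (lt_le _ _ _ _) (lt_nonneg _ _ _ _)
              (mul_nonneg hτ (Nat.cast_nonneg _))
        _ = U ^ 2 * τ * (C.card : ℝ) ^ 2 := by
            rw [← Finset.mul_sum, ← Finset.mul_sum, sum_num]
            ring
    calc ∑ p, ∑ x, (w p * lt τ C (i, q, p) x) ^ 2
        ≤ ∑ _p : ZMod l, U ^ 2 * τ * (C.card : ℝ) ^ 2 := Finset.sum_le_sum fun p _ => h2 p
      _ = l * U ^ 2 * τ * (C.card : ℝ) ^ 2 := by
          rw [Finset.sum_const, Finset.card_univ, ZMod.card, nsmul_eq_mul]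
          ring
  have hf2 : ∑ p, ∑ x, f p x ^ 2 ≤ l * U ^ 2 * τ * (C.card : ℝ) ^ 2 := hsq u false hu
  have hg2 : ∑ t, ∑ x, g t x ^ 2 ≤ l * U ^ 2 * τ * (C.card : ℝ) ^ 2 := hsq u' true hu'
  have hnn : 0 ≤ l * U ^ 2 * τ * (C.card : ℝ) ^ 2 := by positivity
  have herr : 2 * √ (l : ℝ) * (√ (∑ p, ∑ x, f p x ^ 2) * √ (∑ t, ∑ x, g t x ^ 2)) ≤
      2 * √ (l : ℝ) * (l * U ^ 2 * τ * (C.card : ℝ) ^ 2) := by
    refine mul_le_mul_of_nonneg_left ?_ (by positivity)
    calc √ (∑ p, ∑ x, f p x ^ 2) * √ (∑ t, ∑ x, g t x ^ 2)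
        ≤ √ (l * U ^ 2 * τ * (C.card : ℝ) ^ 2) * √ (l * U ^ 2 * τ * (C.card : ℝ) ^ 2) :=
          mul_le_mul (Real.sqrt_le_sqrt hf2) (Real.sqrt_le_sqrt hg2) (Real.sqrt_nonneg _)
            (Real.sqrt_nonneg _)
      _ = _ := Real.mul_self_sqrt hnn
  -- the main term
  have hF : ∑ p, ∑ x, f p x = ∑ p, u p * mass τ C (false, q, p) := by
    refine Finset.sum_congr rfl fun p _ => ?_
    rw [hf]
    simp only
    rw [← Finset.mul_sum]
    rfl
  have hG : ∑ t, ∑ x, g t x = ∑ t, u' t * mass τ C (true, q, t) := by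
    refine Finset.sum_congr rfl fun p _ => ?_
    rw [hg]
    simp only
    rw [← Finset.mul_sum]
    rfl
  rw [hF, hG] at hm
  linarith

/-! ### Bad variables -/

/-- The variables which are concentrated on few values. -/
noncomputable def bad (τ : ℝ) (C : Finset (Ve l → Vec l)) : Finset (Ve l) := by
  classical
  exact univ.filter fun v => 16 * mass τ C v < 15 * C.card

theorem mem_bad {τ : ℝ} {C : Finset (Ve l → Vec l)} {v : Ve l} :
    v ∈ bad τ C ↔ 16 * mass τ C v < 15 * C.card := by
  classical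
  unfold bad
  rw [Finset.mem_filter]
  simp

/-- The frequent values. -/
noncomputable def heavy (τ : ℝ) (C : Finset (Ve l → Vec l)) (v : Ve l) : Finset (Vec l) := by
  classical
  exact univ.filter fun a => ¬ num C v a ≤ τ * C.card

theorem mem_heavy {τ : ℝ} {C : Finset (Ve l → Vec l)} {v : Ve l} {a : Vec l} :
    a ∈ heavy τ C v ↔ ¬ num C v a ≤ τ * C.card := by
  classical
  unfold heavy
  rw [Finset.mem_filter]
  simp

theorem card_heavy {τ : ℝ} (C : Finset (Ve l → Vec l)) (hC : C.Nonempty) (v : Ve l) :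
    τ * (heavy τ C v).card ≤ 1 := by
  have hc : (0 : ℝ) < C.card := by exact_mod_cast hC.card_pos
  have h1 : ∑ _a ∈ heavy τ C v, τ * (C.card : ℝ) ≤ ∑ a ∈ heavy τ C v, num C v a := by
    refine Finset.sum_le_sum fun a ha => ?_
    rw [mem_heavy, not_le] at ha
    exact ha.le
  have h2 : ∑ a ∈ heavy τ C v, num C v a ≤ C.card := by
    rw [← sum_num C v]
    exact Finset.sum_le_sum_of_subset_of_nonneg (Finset.subset_univ _)
      fun _ _ _ => num_nonneg _ _ _
  rw [Finset.sum_const, nsmul_eq_mul] at h1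
  have h3 : (τ * (heavy τ C v).card) * (C.card : ℝ) ≤ 1 * C.card := by
    calc (τ * (heavy τ C v).card) * (C.card : ℝ) = (heavy τ C v).card * (τ * (C.card : ℝ)) := by
          ring
      _ ≤ C.card := h1.trans h2
      _ = 1 * C.card := by ring
  exact le_of_mul_le_mul_right h3 hc

theorem mass_add (τ : ℝ) (C : Finset (Ve l → Vec l)) (v : Ve l) :
    mass τ C v + ((C.filter fun z => z v ∈ heavy τ C v).card : ℝ) = C.card := by
  classical
  have h1 : ((C.filter fun z => z v ∈ heavy τ C v).card : ℝ) =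
      ∑ a, if a ∈ heavy τ C v then num C v a else 0 := by
    have h2 := Finset.card_eq_sum_card_fiberwise (f := fun z : Ve l → Vec l => z v)
      (s := C.filter fun z => z v ∈ heavy τ C v) (t := univ)
      (fun _ _ => Finset.mem_coe.mpr (Finset.mem_univ _))
    rw [h2]
    push_cast
    refine Finset.sum_congr rfl fun a _ => ?_
    by_cases ha : a ∈ heavy τ C v
    · rw [if_pos ha]
      unfold num
      congr 2
      ext z
      rw [Finset.mem_filter, Finset.mem_filter, Finset.mem_filter]
      constructor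
      · rintro ⟨⟨h3, _⟩, h4⟩
        exact ⟨h3, h4⟩
      · rintro ⟨h3, h4⟩
        exact ⟨⟨h3, by rw [h4]; exact ha⟩, h4⟩
    · rw [if_neg ha]
      norm_cast
      rw [Finset.card_eq_zero, Finset.filter_eq_empty_iff]
      intro z hz h3
      rw [Finset.mem_filter] at hz
      rw [h3] at hz
      exact ha hz.2
  rw [h1, ← sum_num C v]
  unfold mass
  rw [← Finset.sum_add_distrib]
  refine Finset.sum_congr rfl fun a _ => ?_
  unfold lt
  by_cases ha : num C v a ≤ τ * C.card
  · rw [if_pos ha, if_neg (by rw [mem_heavy, not_not]; exact ha), add_zero]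
  · rw [if_neg ha, if_pos (by rw [mem_heavy]; exact ha), zero_add]

end Pool.Agent.K1H36.TB
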