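import Mathlib

/-!
# Deterministic programs with random access to the input
-/

set_option autoImplicit false

namespace Pool.Agent.K1H36.TB

/-- A nonuniform deterministic program with random access to an input `x : ι → X`. Its
configurations are the elements of `Z`: in the configuration `a` it reads the cell `query a` of the
input and passes to the configuration `next a (x (query a))`. The answer is yes in the
configurations with `yes a`. -/
structure DProg (ι X Z : Type) where
  /-- the first configuration -/
  start : Z
  /-- the cell which is read -/
  query : Z → ι
  /-- the next configuration -/
  next : Z → X → Z
  /-- the configurations with the answer yes -/
  yes : Z → Prop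

namespace DProg

variable {ι X Z : Type} (M : DProg ι X Z)

/-- The configuration after `i` reads on the input `x`. -/
def run (x : ι → X) : ℕ → Z
  | 0 => M.start
  | i + 1 => M.next (run x i) (x (M.query (run x i)))

/-- The answer after `T` reads is yes. -/
def Says (x : ι → X) (T : ℕ) : Prop := M.yes (M.run x T)

end DProg

end Pool.Agent.K1H36.TB
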