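import Pool.Agent.K1H36.TB.Sum
import Pool.Agent.K1H36.TS.Final

/-!
# Bounded error
-/

set_option autoImplicit false

open Finset

namespace Pool.Agent.K1H36.TB

open Pool.Agent.K1H36.TS Pool.Agent.K1H36.TW Pool.Agent.K1H36.NF

section zeros

variable {l : ℕ} [Fact l.Prime]

/-- All inputs. -/
def allZ (l : ℕ) [Fact l.Prime] : Finset (Ve l → Vec l) := Fintype.piFinset fun _ => Dom l

theorem card_allZ : ((allZ l).card : ℝ) = ((Dom l).card : ℝ) ^ (2 * l ^ 2) := by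
  unfold allZ
  rw [Fintype.card_piFinset, Finset.prod_const, Finset.card_univ, Fintype.card_prod,
    Fintype.card_prod, Fintype.card_bool, ZMod.card]
  have : 2 * (l * l) = 2 * l ^ 2 := by ring
  rw [this]
  push_cast
  rfl

theorem mix_allZ (B : Finset (Ve l)) : ∀ z ∈ allZ l, ∀ z' ∈ allZ l, mix B z z' ∈ allZ l := by
  intro z hz z' hz'
  unfold allZ at hz hz' ⊢
  rw [Fintype.mem_piFinset] at hz hz' ⊢
  intro v
  unfold mix
  split_ifs
  · exact hz' v
  · exact hz v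

/-- Each value is taken equally often. -/
theorem num_allZ (v : Ve l) (a : Vec l) :
    ((Dom l).card : ℝ) * num (allZ l) v a ≤ (allZ l).card := by
  classical
  unfold num
  have h : ((allZ l).filter fun z => z v = a).card * (Dom l).card ≤ (allZ l).card := by
    rw [← Finset.card_product]
    refine Finset.card_le_card_of_injOn
      (fun x => fun w => if w = v then x.2 else x.1 w) ?_ ?_
    · intro x hx
      rw [Finset.mem_coe, Finset.mem_product, Finset.mem_filter] at hx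
      unfold allZ at hx ⊢
      rw [Fintype.mem_piFinset] at hx
      rw [Finset.mem_coe, Fintype.mem_piFinset]
      intro w
      by_cases hw : w = v
      · simp only [hw, if_true]
        exact hx.2
      · simp only [hw, if_false]
        exact hx.1.1 w
    · intro x hx y hy hxy
      rw [Finset.mem_coe, Finset.mem_product, Finset.mem_filter] at hx hy
      have h2 : x.2 = y.2 := by
        have := congrFun hxy v
        simp only [if_true] at this
        exact this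
      have h1 : x.1 = y.1 := by
        funext w
        by_cases hw : w = v
        · rw [hw, hx.1.2, hy.1.2]
        · have := congrFun hxy w
          simp only [hw, if_false] at this
          exact this
      exact Prod.ext h1 h2
  have h2 : (((allZ l).filter fun z => z v = a).card : ℝ) * ((Dom l).card : ℝ) ≤
      (allZ l).card := by exact_mod_cast h
  linarith

theorem dom_pos : (0 : ℝ) < ((Dom l).card : ℝ) := by
  have h1 := card_dom (l := l)
  have hlpos : (0 : ℝ) < l := by exact_mod_cast (Fact.out : l.Prime).pos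
  have h2 : (0 : ℝ) < (l : ℝ) ^ 4 := by positivity
  linarith

theorem allZ_pos : (0 : ℝ) < ((allZ l).card : ℝ) := by
  rw [card_allZ]
  have := dom_pos (l := l)
  positivity

/-- **The number of the zero triangles of all inputs.** -/
theorem zeros_allZ : (l : ℝ) * zeros (fun _ => 1) (allZ l) ≤
    (allZ l).card * (1 + 32 / √ (l : ℝ)) := by
  have hlpos : (0 : ℝ) < l := by exact_mod_cast (Fact.out : l.Prime).pos
  have hD := dom_pos (l := l)
  have hA := allZ_pos (l := l)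
  obtain ⟨a, ha⟩ : ∃ a : ℝ, a = ((allZ l).card : ℝ) := ⟨_, rfl⟩
  obtain ⟨N, hN⟩ : ∃ N : ℝ, N = ((Dom l).card : ℝ) := ⟨_, rfl⟩
  have hN1 : (l : ℝ) ^ 4 ≤ 16 * N := by rw [hN]; exact card_dom
  rw [← ha] at hA
  rw [← hN] at hD
  -- one bucket
  have hq : ∀ q : ZMod l, a * ∑ p, ∑ t, (((allZ l).filter fun z =>
      z (false, q, p) + z (true, q, t) = tgt p t).card : ℝ) ≤
      a ^ 2 * (1 / (l : ℝ) ^ 2 + 2 * √ (l : ℝ) * l / N) := by
    intro q
    have hm := (abs_le.mp (mixing (fun p x => num (allZ l) (false, q, p) x)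
      (fun t x => num (allZ l) (true, q, t) x))).2
    have e1 : ∑ p, ∑ t, ∑ x, num (allZ l) (false, q, p) x * num (allZ l) (true, q, t) (tgt p t - x) =
        a * ∑ p, ∑ t, (((allZ l).filter fun z =>
          z (false, q, p) + z (true, q, t) = tgt p t).card : ℝ) := by
      rw [Finset.mul_sum]
      refine Finset.sum_congr rfl fun p _ => ?_
      rw [Finset.mul_sum]
      refine Finset.sum_congr rfl fun t _ => ?_
      rw [ha]
      refine (zero_count (allZ l) (univ.filter fun v : Ve l => v.1 = true) (mix_allZ _) ?_ ?_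
        (tgt p t)).symm
      · rw [Finset.mem_filter]
        rintro ⟨_, h⟩
        exact Bool.false_ne_true h
      · rw [Finset.mem_filter]
        exact ⟨Finset.mem_univ _, rfl⟩
    have e2 : ∀ i : Bool, ∑ p, ∑ x, num (allZ l) (i, q, p) x = l * a := by
      intro i
      simp_rw [sum_num]
      rw [Finset.sum_const, Finset.card_univ, ZMod.card, nsmul_eq_mul, ha]
    have e3 : ∀ i : Bool, ∑ p, ∑ x, num (allZ l) (i, q, p) x ^ 2 ≤ l * (a ^ 2 / N) := by
      intro i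
      calc ∑ p, ∑ x, num (allZ l) (i, q, p) x ^ 2
          ≤ ∑ p, ∑ x, num (allZ l) (i, q, p) x * (a / N) := by
            refine Finset.sum_le_sum fun p _ => Finset.sum_le_sum fun x _ => ?_
            rw [sq]
            refine mul_le_mul_of_nonneg_left ?_ (num_nonneg _ _ _)
            rw [le_div_iff₀ hD, ha, hN]
            have := num_allZ (i, q, p) x
            linarith
        _ = l * (a ^ 2 / N) := by
            simp_rw [← Finset.sum_mul, sum_num]
            rw [Finset.sum_const, Finset.card_univ, ZMod.card, nsmul_eq_mul, ← ha]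
            ring
    rw [e1, e2 false, e2 true] at hm
    have e4 : √ (∑ p, ∑ x, num (allZ l) (false, q, p) x ^ 2) *
        √ (∑ p, ∑ x, num (allZ l) (true, q, p) x ^ 2) ≤ l * (a ^ 2 / N) := by
      calc √ (∑ p, ∑ x, num (allZ l) (false, q, p) x ^ 2) *
            √ (∑ p, ∑ x, num (allZ l) (true, q, p) x ^ 2)
          ≤ √ (l * (a ^ 2 / N)) * √ (l * (a ^ 2 / N)) :=
            mul_le_mul (Real.sqrt_le_sqrt (e3 false)) (Real.sqrt_le_sqrt (e3 true))
              (Real.sqrt_nonneg _) (Real.sqrt_nonneg _)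
        _ = l * (a ^ 2 / N) := Real.mul_self_sqrt (by positivity)
    have e5 : 2 * √ (l : ℝ) * (√ (∑ p, ∑ x, num (allZ l) (false, q, p) x ^ 2) *
        √ (∑ p, ∑ x, num (allZ l) (true, q, p) x ^ 2)) ≤ 2 * √ (l : ℝ) * (l * (a ^ 2 / N)) :=
      mul_le_mul_of_nonneg_left e4 (by positivity)
    have e6 : (l : ℝ) * a * (l * a) / (l : ℝ) ^ 4 = a ^ 2 * (1 / (l : ℝ) ^ 2) := by
      field_simp
    have e7 : a ^ 2 * (2 * √ (l : ℝ) * l / N) = 2 * √ (l : ℝ) * (l * (a ^ 2 / N)) := by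
      field_simp
    rw [mul_add, e7, ← e6]
    linarith
  have h1 : zeros (fun _ => 1) (allZ l) = ∑ q : ZMod l, ∑ p, ∑ t, (((allZ l).filter fun z =>
      z (false, q, p) + z (true, q, t) = tgt p t).card : ℝ) := by
    unfold zeros
    simp only [one_mul]
  have h2 : a * zeros (fun _ => 1) (allZ l) ≤
      a * (l * (a * (1 / (l : ℝ) ^ 2 + 2 * √ (l : ℝ) * l / N))) := by
    rw [h1, Finset.mul_sum]
    calc ∑ q : ZMod l, a * ∑ p, ∑ t, (((allZ l).filter fun z =>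
          z (false, q, p) + z (true, q, t) = tgt p t).card : ℝ)
        ≤ ∑ _q : ZMod l, a ^ 2 * (1 / (l : ℝ) ^ 2 + 2 * √ (l : ℝ) * l / N) :=
          Finset.sum_le_sum fun q _ => hq q
      _ = _ := by
          rw [Finset.sum_const, Finset.card_univ, ZMod.card, nsmul_eq_mul]
          ring
  have h3 := le_of_mul_le_mul_left h2 hA
  rw [← ha]
  have hsq : √ (l : ℝ) * √ (l : ℝ) = l := Real.mul_self_sqrt hlpos.le
  have hspos : 0 < √ (l : ℝ) := Real.sqrt_pos.mpr hlpos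
  have h4 : (l : ℝ) * (l * (1 / (l : ℝ) ^ 2 + 2 * √ (l : ℝ) * l / N)) ≤ 1 + 32 / √ (l : ℝ) := by
    have e1 : (l : ℝ) * (l * (1 / (l : ℝ) ^ 2 + 2 * √ (l : ℝ) * l / N)) =
        1 + 2 * √ (l : ℝ) * (l : ℝ) ^ 3 / N := by
      field_simp
    rw [e1]
    have e2 : 2 * √ (l : ℝ) * (l : ℝ) ^ 3 / N ≤ 32 / √ (l : ℝ) := by
      rw [div_le_div_iff₀ hD hspos]
      calc 2 * √ (l : ℝ) * (l : ℝ) ^ 3 * √ (l : ℝ) = 2 * (√ (l : ℝ) * √ (l : ℝ)) * (l : ℝ) ^ 3 := by
            ring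
        _ = 2 * (l : ℝ) ^ 4 := by rw [hsq]; ring
        _ ≤ 32 * N := by linarith
    linarith
  calc (l : ℝ) * zeros (fun _ => 1) (allZ l)
      ≤ l * (l * (a * (1 / (l : ℝ) ^ 2 + 2 * √ (l : ℝ) * l / N))) :=
        mul_le_mul_of_nonneg_left h3 hlpos.le
    _ = a * ((l : ℝ) * (l * (1 / (l : ℝ) ^ 2 + 2 * √ (l : ℝ) * l / N))) := by ring
    _ ≤ a * (1 + 32 / √ (l : ℝ)) := mul_le_mul_of_nonneg_left h4 hA.le

end zeros

section two

variable {l : ℕ} [Fact l.Prime]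

/-- The conclusion from the estimates of the errors. -/
theorem final_alg {l N a z X₁ X₂ X₃ : ℝ} (hl : 0 < l) (hN : 0 ≤ N) (er1 : X₁ ≤ 1 / 64 / l)
    (er2 : X₂ ≤ 1 / 64 / l) (er3 : X₃ ≤ a / 64 / l)
    (hmain : N * ((15 / 16) ^ 2 * (7 / 8) / l - X₁ - X₂) - X₃ ≤ z) :
    11 / 15 * N - a / 64 ≤ l * z := by
  have h1 : N * ((15 / 16) ^ 2 * (7 / 8) / l - 1 / 64 / l - 1 / 64 / l) - a / 64 / l ≤ z := by
    refine le_trans ?_ hmain
    have h2 : N * ((15 / 16) ^ 2 * (7 / 8) / l - 1 / 64 / l - 1 / 64 / l) ≤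
        N * ((15 / 16) ^ 2 * (7 / 8) / l - X₁ - X₂) :=
      mul_le_mul_of_nonneg_left (by linarith) hN
    linarith
  have h2 : l * (N * ((15 / 16) ^ 2 * (7 / 8) / l - 1 / 64 / l - 1 / 64 / l) - a / 64 / l) =
      N * ((15 / 16) ^ 2 * (7 / 8) - 1 / 64 - 1 / 64) - a / 64 := by
    field_simp
  have h3 := mul_le_mul_of_nonneg_left h1 hl.le
  rw [h2] at h3
  have h4 : 11 / 15 * N ≤ N * ((15 / 16) ^ 2 * (7 / 8) - 1 / 64 - 1 / 64) := by
    have : (11 / 15 : ℝ) ≤ (15 / 16) ^ 2 * (7 / 8) - 1 / 64 - 1 / 64 := by norm_num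
    nlinarith
  linarith

/-- **One program with good parameters.** -/
theorem program_good {ι X Z : Type} [Fintype Z] (M : DProg ι X Z)
    (I : (Ve l → Vec l) → ι → X) (ρ : ι → Option (Ve l))
    (hI : ∀ z z' c, (∀ v, ρ c = some v → z v = z' v) → I z c = I z' c) {k T : ℕ} (hk : 0 < k)
    (hT : T ≤ k * l ^ 2) {S : ℝ} (hS : 1 ≤ S) (hZ : (Fintype.card Z : ℝ) ≤ 2 ^ S)
    (hSl : 66 * (k : ℝ) ^ 2 * S ≤ l) (hl : 2 ^ 2 ^ (96 * k + 18) ≤ l) :
    11 / 15 * ((noSet M I (Dom l) T).card : ℝ) - (allZ l).card / 64 ≤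
      l * zeros (fun _ => 1) (noSet M I (Dom l) T) := by
  have hl0 : 0 < l := (Fact.out : l.Prime).pos
  have hlpos : (0 : ℝ) < l := by exact_mod_cast hl0
  obtain ⟨K, hK⟩ : ∃ K, K = 32 * k := ⟨_, rfl⟩
  have hl' : 2 ^ 2 ^ (3 * K + 18) ≤ l := by
    rw [hK]
    have : 3 * (32 * k) + 18 = 96 * k + 18 := by ring
    rw [this]
    exact hl
  have hKtwo : K + 1 ≤ 2 ^ K := Nat.lt_two_pow_self
  -- `64 k ≤ l`
  have hbig : 3 * K + 18 < 2 ^ (3 * K + 18) := Nat.lt_two_pow_self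
  have hbig2 : 2 ^ (3 * K + 18) < l :=
    lt_of_lt_of_le (Nat.lt_two_pow_self) hl'
  have hkl : 64 * k ≤ l := by omega
  -- parameters
  obtain ⟨L, hLdef⟩ : ∃ L, L = l / (32 * k) := ⟨_, rfl⟩
  have hL1 : 32 * k * L ≤ l := by
    rw [hLdef]
    exact Nat.mul_div_le l (32 * k)
  have hL2 : l < 32 * k * (L + 1) := by
    rw [hLdef]
    exact Nat.lt_mul_div_succ l (by omega)
  have hL0 : 0 < L := by
    rcases Nat.eq_zero_or_pos L with h | h
    · rw [h] at hL2
      omega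
    · exact h
  have hL3 : l ≤ 64 * k * L := by
    have : 32 * k * (L + 1) ≤ 32 * k * (2 * L) := Nat.mul_le_mul_left _ (by omega)
    calc l ≤ 32 * k * (L + 1) := hL2.le
      _ ≤ 32 * k * (2 * L) := this
      _ = 64 * k * L := by ring
  obtain ⟨r, hrdef⟩ : ∃ r, r = T / L + 1 := ⟨_, rfl⟩
  have hr1 : T ≤ r * L := by
    have h := Nat.lt_mul_div_succ T hL0
    rw [hrdef, Nat.mul_comm]
    exact h.le
  have hr2 : r * L ≤ 2 * k * l ^ 2 := by
    have h1 : T / L * L ≤ T := Nat.div_mul_le_self T L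
    have h2 : L ≤ l := by
      calc L ≤ 32 * k * L := Nat.le_mul_of_pos_left L (by omega)
        _ ≤ l := hL1
    have h3 : l ≤ k * l ^ 2 := by
      calc l = 1 * (l * 1) := by ring
        _ ≤ k * (l * l) := Nat.mul_le_mul (by omega) (Nat.mul_le_mul_left l hl0)
        _ = k * l ^ 2 := by ring
    calc r * L = T / L * L + L := by rw [hrdef]; ring
      _ ≤ k * l ^ 2 + k * l ^ 2 := Nat.add_le_add (h1.trans hT) (h2.trans h3)
      _ = 2 * k * l ^ 2 := by ring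
  have hr3 : r + 1 ≤ 66 * k ^ 2 * l := by
    have h1 : T / L ≤ 64 * k ^ 2 * l := by
      apply Nat.div_le_of_le_mul
      calc T ≤ k * l ^ 2 := hT
        _ = (k * l) * l := by ring
        _ ≤ (k * l) * (64 * k * L) := Nat.mul_le_mul_left _ hL3
        _ = L * (64 * k ^ 2 * l) := by ring
    have h2 : 1 ≤ k ^ 2 * l := by
      have : 0 < k ^ 2 * l := by positivity
      omega
    calc r + 1 = T / L + 2 := by rw [hrdef]
      _ ≤ 64 * k ^ 2 * l + 2 * (k ^ 2 * l) := Nat.add_le_add h1 (by omega)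
      _ = 66 * k ^ 2 * l := by ring
  obtain ⟨s, hs⟩ : ∃ s, s = 2 ^ (3 * K + 11) := ⟨_, rfl⟩
  obtain ⟨e, he⟩ : ∃ e, e = l ^ 2 * (6 * K + 11) := ⟨_, rfl⟩
  obtain ⟨b, hb⟩ : ∃ b, b = l ^ 2 / 2 ^ (2 * K + 6) := ⟨_, rfl⟩
  have hb1 : b * 2 ^ (2 * K + 6) ≤ l ^ 2 := by
    rw [hb]
    exact Nat.div_mul_le_self _ _
  have hb2 : l ^ 2 < 2 ^ (2 * K + 6) * (b + 1) := by
    rw [hb]
    exact Nat.lt_mul_div_succ _ (by positivity)
  have hsK : 2 ^ (2 * K + 6) * (6 * K + 17) ≤ s := by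
    have h1 : 6 * K + 17 ≤ 32 * 2 ^ K := by omega
    calc 2 ^ (2 * K + 6) * (6 * K + 17) ≤ 2 ^ (2 * K + 6) * (32 * 2 ^ K) :=
          Nat.mul_le_mul_left _ h1
      _ = s := by
          rw [hs, show (32 : ℕ) = 2 ^ 5 by norm_num, ← pow_add, ← pow_add]
          congr 1
          ring
  have hcond : e + 5 < (s - 1) * (b + 1) := by
    have h1 : 2 ^ (2 * K + 6) * (6 * K + 16) ≤ s - 1 := by
      have h2 : 2 ^ (2 * K + 6) * (6 * K + 17) = 2 ^ (2 * K + 6) * (6 * K + 16) + 2 ^ (2 * K + 6) := by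
        ring
      have h3 : 0 < 2 ^ (2 * K + 6) := by positivity
      omega
    have hl2 : 1 ≤ l ^ 2 := Nat.one_le_pow _ _ hl0
    calc e + 5 ≤ l ^ 2 * (6 * K + 16) := by
          rw [he]
          have : l ^ 2 * (6 * K + 16) = l ^ 2 * (6 * K + 11) + 5 * l ^ 2 := by ring
          omega
      _ < (2 ^ (2 * K + 6) * (b + 1)) * (6 * K + 16) :=
          Nat.mul_lt_mul_of_pos_right hb2 (by omega)
      _ = (2 ^ (2 * K + 6) * (6 * K + 16)) * (b + 1) := by ring
      _ ≤ (s - 1) * (b + 1) := Nat.mul_le_mul_right _ h1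
  have hN1 := card_dom (l := l)
  have hD := dom_pos (l := l)
  obtain ⟨τ, hτ⟩ : ∃ τ : ℝ, τ = 2 ^ (32 * s) * 16 / (l : ℝ) ^ 4 := ⟨_, rfl⟩
  have hτ0 : 0 ≤ τ := by rw [hτ]; positivity
  have hτD : (2 : ℝ) ^ (32 * s) ≤ τ * (Dom l).card := by
    rw [hτ, div_mul_eq_mul_div, le_div_iff₀ (by positivity)]
    calc (2 : ℝ) ^ (32 * s) * (l : ℝ) ^ 4 ≤ 2 ^ (32 * s) * (16 * (Dom l).card) := by gcongr
      _ = _ := by ring
  have hmain := program_ineq (M := M) (I := I) (ρ := ρ) hI hk hK hτ0 (Dom l) hτD hcond hr1 hr2 hL1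
  obtain ⟨N, hN⟩ : ∃ N : ℝ, N = ((noSet M I (Dom l) T).card : ℝ) := ⟨_, rfl⟩
  obtain ⟨z, hz⟩ : ∃ z : ℝ, z = zeros (fun _ => 1) (noSet M I (Dom l) T) := ⟨_, rfl⟩
  have hN0 : 0 ≤ N := by rw [hN]; exact Nat.cast_nonneg _
  have hNle : N ≤ (allZ l).card := by
    rw [hN]
    have : (noSet M I (Dom l) T).card ≤ (allZ l).card := by
      refine Finset.card_le_card fun z hz => ?_
      rw [mem_noSet] at hz
      unfold allZ
      rw [Fintype.mem_piFinset]
      exact hz.1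
    exact_mod_cast this
  rw [← hN, ← hz, ← card_allZ] at hmain
  rw [← hN, ← hz]
  obtain ⟨a, ha⟩ : ∃ a : ℝ, a = ((allZ l).card : ℝ) := ⟨_, rfl⟩
  have ha0 : 0 ≤ a := by rw [ha]; exact Nat.cast_nonneg _
  rw [← ha] at hmain hNle ⊢
  -- the first error
  have er1 : (2 ^ K : ℝ) ^ 2 * l * b / (l : ℝ) ^ 4 ≤ 1 / 64 / l := by
    have h1 : (b : ℝ) * 2 ^ (2 * K + 6) ≤ (l : ℝ) ^ 2 := by exact_mod_cast hb1
    rw [div_div, div_le_div_iff₀ (by positivity) (by positivity)]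
    calc (2 ^ K : ℝ) ^ 2 * l * b * (64 * l) = ((b : ℝ) * 2 ^ (2 * K + 6)) * (l : ℝ) ^ 2 := by
          rw [pow_add, ← pow_mul, Nat.mul_comm K 2]
          ring
      _ ≤ (l : ℝ) ^ 2 * (l : ℝ) ^ 2 := by gcongr
      _ = 1 * (l : ℝ) ^ 4 := by ring
  -- the second error
  have hsq : √ (l : ℝ) * √ (l : ℝ) = l := Real.mul_self_sqrt hlpos.le
  have hspos : 0 < √ (l : ℝ) := Real.sqrt_pos.mpr hlpos
  have er2 : 2 * √ (l : ℝ) * ((l : ℝ) ^ 2 * (2 ^ K) ^ 2 * τ) ≤ 1 / 64 / l := by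
    have h1 : (2 : ℝ) ^ (2 * K + 32 * s + 11) ≤ √ (l : ℝ) := by
      refine Real.le_sqrt_of_sq_le ?_
      rw [← pow_mul]
      have h2 : (2 * K + 32 * s + 11) * 2 ≤ 2 ^ (3 * K + 18) := by
        have h3 : 2 ^ (3 * K + 18) = 128 * s := by
          rw [hs, show (128 : ℕ) = 2 ^ 7 by norm_num, ← pow_add]
          congr 1
          ring
        have h4 : 3 * K + 11 < s := by rw [hs]; exact Nat.lt_two_pow_self
        omega
      have h3 : 2 ^ ((2 * K + 32 * s + 11) * 2) ≤ l :=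
        (Nat.pow_le_pow_right (by norm_num) h2).trans hl'
      exact_mod_cast h3
    have h2 : 2 * √ (l : ℝ) * ((l : ℝ) ^ 2 * (2 ^ K) ^ 2 * τ) =
        (2 : ℝ) ^ (2 * K + 32 * s + 5) * √ (l : ℝ) / (l : ℝ) ^ 2 := by
      rw [hτ]
      field_simp
      rw [pow_add, pow_add, ← pow_mul, Nat.mul_comm K 2]
      ring
    rw [h2, div_div, div_le_div_iff₀ (by positivity) (by positivity)]
    calc (2 : ℝ) ^ (2 * K + 32 * s + 5) * √ (l : ℝ) * (64 * l)
        = (2 : ℝ) ^ (2 * K + 32 * s + 11) * √ (l : ℝ) * l := by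
          rw [show 2 * K + 32 * s + 11 = (2 * K + 32 * s + 5) + 6 by ring, pow_add _ _ 6]
          ring
      _ ≤ √ (l : ℝ) * √ (l : ℝ) * l := by gcongr
      _ = 1 * (l : ℝ) ^ 2 := by rw [hsq]; ring
  -- the number of the classes
  have er3 : ((Fintype.card Z : ℝ) ^ (r + 1) * ((K : ℝ) + 2) ^ (4 * l ^ 2)) *
      ((2 ^ K) ^ 2 / l * (a / 2 ^ e)) ≤ a / 64 / l := by
    have h1 : (Fintype.card Z : ℝ) ^ (r + 1) ≤ 2 ^ (l ^ 2) := by
      calc (Fintype.card Z : ℝ) ^ (r + 1) ≤ ((2 : ℝ) ^ S) ^ (r + 1) :=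
            pow_le_pow_left₀ (Nat.cast_nonneg _) hZ _
        _ = (2 : ℝ) ^ (S * ((r : ℝ) + 1)) := by
            rw [← Real.rpow_natCast, ← Real.rpow_mul (by norm_num)]
            push_cast
            rfl
        _ ≤ (2 : ℝ) ^ ((l : ℝ) ^ 2) := by
            refine Real.rpow_le_rpow_of_exponent_le (by norm_num) ?_
            have h2 : (r : ℝ) + 1 ≤ 66 * (k : ℝ) ^ 2 * l := by exact_mod_cast hr3
            calc S * ((r : ℝ) + 1) ≤ S * (66 * (k : ℝ) ^ 2 * l) := by gcongr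
              _ = (66 * (k : ℝ) ^ 2 * S) * l := by ring
              _ ≤ l * l := by gcongr
              _ = (l : ℝ) ^ 2 := by ring
        _ = 2 ^ (l ^ 2) := by
            rw [← Real.rpow_natCast (2 : ℝ) (l ^ 2)]
            push_cast
            rfl
    have h2 : ((K : ℝ) + 2) ^ (4 * l ^ 2) ≤ 2 ^ ((K + 1) * (4 * l ^ 2)) := by
      rw [pow_mul (2 : ℝ) (K + 1) (4 * l ^ 2)]
      refine pow_le_pow_left₀ (by positivity) ?_ _
      have h3 : K + 2 ≤ 2 ^ (K + 1) := by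
        rw [pow_succ]
        omega
      exact_mod_cast h3
    have h3 : (Fintype.card Z : ℝ) ^ (r + 1) * ((K : ℝ) + 2) ^ (4 * l ^ 2) * (2 ^ K) ^ 2 * 64 ≤
        2 ^ e := by
      calc (Fintype.card Z : ℝ) ^ (r + 1) * ((K : ℝ) + 2) ^ (4 * l ^ 2) * (2 ^ K) ^ 2 * 64
          ≤ 2 ^ (l ^ 2) * 2 ^ ((K + 1) * (4 * l ^ 2)) * (2 ^ K) ^ 2 * 64 := by gcongr
        _ = 2 ^ (l ^ 2 + (K + 1) * (4 * l ^ 2) + K * 2 + 6) := by
            rw [pow_add, pow_add, pow_add, pow_mul (2 : ℝ) K 2]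
            norm_num
        _ ≤ 2 ^ e := by
            refine pow_le_pow_right₀ (by norm_num) ?_
            rw [he]
            have hl2 : 1 ≤ l ^ 2 := Nat.one_le_pow _ _ hl0
            have h5 : (2 * K + 6) * 1 ≤ (2 * K + 6) * l ^ 2 := Nat.mul_le_mul_left _ hl2
            calc l ^ 2 + (K + 1) * (4 * l ^ 2) + K * 2 + 6
                = l ^ 2 * (4 * K + 5) + (2 * K + 6) * 1 := by ring
              _ ≤ l ^ 2 * (4 * K + 5) + (2 * K + 6) * l ^ 2 := Nat.add_le_add_left h5 _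
              _ = l ^ 2 * (6 * K + 11) := by ring
    have h4 : ((Fintype.card Z : ℝ) ^ (r + 1) * ((K : ℝ) + 2) ^ (4 * l ^ 2)) *
        ((2 ^ K) ^ 2 / l * (a / 2 ^ e)) =
        ((Fintype.card Z : ℝ) ^ (r + 1) * ((K : ℝ) + 2) ^ (4 * l ^ 2) * (2 ^ K) ^ 2 * 64) *
          (a / 64 / l) / 2 ^ e := by
      field_simp
    rw [h4, div_le_iff₀ (by positivity), mul_comm]
    exact mul_le_mul_of_nonneg_left h3 (by positivity)
  exact final_alg hlpos hN0 er1 er2 er3 hmain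

end two

end Pool.Agent.K1H36.TB
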