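import Pool.Agent.K1H36.TB.Final

/-!
# Random programs with bounded error
-/

set_option autoImplicit false

open Finset

namespace Pool.Agent.K1H36.TB

open Pool.Agent.K1H36.TS Pool.Agent.K1H36.TW Pool.Agent.K1H36.NF

open Classical in
/-- **Bounded error, with a prime number.** -/
theorem bounded_prime {l : ℕ} [Fact l.Prime] {n T k : ℕ} (hn : 3 * l ≤ n) (hk : 0 < k)
    (hT : T ≤ k * l ^ 2) {S : ℝ} (hS : 1 ≤ S) {Z Ω : Type} [Fintype Z] [Fintype Ω]
    (hZ : (Fintype.card Z : ℝ) ≤ 2 ^ S) (P : Ω → ℝ) (hP : ∀ ω, 0 ≤ P ω) (hP1 : ∑ ω, P ω = 1)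
    (M : Ω → DProg (Fin n × Fin n) (Bool × ℤ) Z)
    (hyes : ∀ x, Valid n x → Yes n x →
      2 / 3 ≤ ∑ ω ∈ univ.filter (fun ω => (M ω).Says x T), P ω)
    (hno : ∀ x, Valid n x → ¬ Yes n x →
      2 / 3 ≤ ∑ ω ∈ univ.filter (fun ω => ¬ (M ω).Says x T), P ω)
    (hSl : 66 * (k : ℝ) ^ 2 * S ≤ l) : l < 2 ^ 2 ^ (96 * k + 18) := by
  by_contra hcon
  push Not at hcon
  have hlpos : (0 : ℝ) < l := by exact_mod_cast (Fact.out : l.Prime).pos
  have hl20 : 2 ^ 20 ≤ l := by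
    refine le_trans (Nat.pow_le_pow_right (by norm_num) ?_) hcon
    have : 96 * k + 18 < 2 ^ (96 * k + 18) := Nat.lt_two_pow_self
    omega
  have hprog : ∀ ω, 11 / 15 * ((noSet (M ω) (input n) (Dom l) T).card : ℝ) - (allZ l).card / 64 ≤
      l * zeros (fun _ => 1) (noSet (M ω) (input n) (Dom l) T) := fun ω =>
    program_good (M ω) (input n) cellVar input_congr hk hT hS hZ hSl hcon
  clear hcon
  obtain ⟨a, ha⟩ : ∃ a : ℝ, a = ((allZ l).card : ℝ) := ⟨_, rfl⟩
  have ha0 : 0 < a := by rw [ha]; exact allZ_pos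
  have hmemall : ∀ z : Ve l → Vec l, z ∈ allZ l ↔ ∀ v, z v ∈ Dom l := by
    intro z
    unfold allZ
    rw [Fintype.mem_piFinset]
  -- the probability of the answer no
  set pn : (Ve l → Vec l) → ℝ := fun z =>
    ∑ ω, if ¬ (M ω).Says (input n z) T then P ω else 0 with hpn
  have hpn0 : ∀ z, 0 ≤ pn z := fun z => Finset.sum_nonneg fun ω _ => by
    split_ifs
    · exact le_refl _
    · exact hP ω
  have hpnyes : ∀ z ∈ allZ l, ¬ Free z → pn z ≤ 1 / 3 := by
    intro z hz hf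
    rw [hmemall] at hz
    have h1 := hyes _ (input_valid hn z) ((input_yes hn z hz).mpr hf)
    rw [Finset.sum_filter] at h1
    have h2 : pn z + ∑ ω, (if (M ω).Says (input n z) T then P ω else 0) = 1 := by
      rw [hpn, ← Finset.sum_add_distrib, ← hP1]
      refine Finset.sum_congr rfl fun ω _ => ?_
      by_cases h : (M ω).Says (input n z) T
      · rw [if_neg (not_not.mpr h), if_pos h, zero_add]
      · rw [if_pos h, if_neg h, add_zero]
    linarith
  have hpnno : ∀ z ∈ allZ l, Free z → 2 / 3 ≤ pn z := by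
    intro z hz hf
    rw [hmemall] at hz
    have h1 := hno _ (input_valid hn z) (fun h => (input_yes hn z hz).mp h hf)
    rw [Finset.sum_filter] at h1
    exact h1
  -- the sizes
  have hsize : ∑ ω, P ω * ((noSet (M ω) (input n) (Dom l) T).card : ℝ) = ∑ z ∈ allZ l, pn z := by
    have h1 : ∀ ω, P ω * ((noSet (M ω) (input n) (Dom l) T).card : ℝ) =
        ∑ z ∈ allZ l, if ¬ (M ω).Says (input n z) T then P ω else 0 := by
      intro ω
      have h2 : noSet (M ω) (input n) (Dom l) T =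
          (allZ l).filter fun z => ¬ (M ω).Says (input n z) T := by
        ext z
        rw [mem_noSet, Finset.mem_filter, hmemall]
      rw [h2, ← Finset.sum_filter, Finset.sum_const, nsmul_eq_mul, mul_comm]
    simp_rw [h1]
    rw [Finset.sum_comm]
  have hfree : a / 2 ≤ ∑ z ∈ allZ l, pn z := by
    have h1 := card_free (l := l) (le_trans (by norm_num) hl20) ((allZ l).filter fun z => Free z)
      (fun z hz hf => Finset.mem_filter.mpr ⟨(hmemall z).mpr hz, hf⟩)
    rw [← card_allZ, ← ha] at h1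
    calc a / 2 = 2 / 3 * (3 / 4 * a) := by ring
      _ ≤ 2 / 3 * (((allZ l).filter fun z => Free z).card : ℝ) := by linarith
      _ = ∑ _z ∈ (allZ l).filter (fun z => Free z), (2 / 3 : ℝ) := by
          rw [Finset.sum_const, nsmul_eq_mul, mul_comm]
      _ ≤ ∑ z ∈ (allZ l).filter (fun z => Free z), pn z :=
          Finset.sum_le_sum fun z hz => hpnno z (Finset.mem_filter.mp hz).1 (Finset.mem_filter.mp hz).2
      _ ≤ ∑ z ∈ allZ l, pn z :=
          Finset.sum_le_sum_of_subset_of_nonneg (Finset.filter_subset _ _) fun z _ _ => hpn0 z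
  -- the zero triangles
  set cnt : (Ve l → Vec l) → ℝ := fun z => ∑ q : ZMod l, ∑ p : ZMod l, ∑ t : ZMod l,
    if z (false, q, p) + z (true, q, t) = tgt p t then (1 : ℝ) else 0 with hcnt
  have hcnt0 : ∀ z, 0 ≤ cnt z := fun z => Finset.sum_nonneg fun q _ =>
    Finset.sum_nonneg fun p _ => Finset.sum_nonneg fun t _ => by split_ifs <;> norm_num
  have hzer : ∀ C : Finset (Ve l → Vec l), zeros (fun _ => 1) C = ∑ z ∈ C, cnt z := by
    intro C
    rw [zeros_eq]
    simp only [one_mul]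
    rfl
  have hzsum : ∑ ω, P ω * zeros (fun _ => 1) (noSet (M ω) (input n) (Dom l) T) =
      ∑ z ∈ allZ l, cnt z * pn z := by
    have h1 : ∀ ω, P ω * zeros (fun _ => 1) (noSet (M ω) (input n) (Dom l) T) =
        ∑ z ∈ allZ l, cnt z * (if ¬ (M ω).Says (input n z) T then P ω else 0) := by
      intro ω
      have h2 : noSet (M ω) (input n) (Dom l) T =
          (allZ l).filter fun z => ¬ (M ω).Says (input n z) T := by
        ext z
        rw [mem_noSet, Finset.mem_filter, hmemall]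
      rw [hzer, h2, Finset.sum_filter, Finset.mul_sum]
      refine Finset.sum_congr rfl fun z _ => ?_
      by_cases h : ¬ (M ω).Says (input n z) T
      · rw [if_pos h, if_pos h, mul_comm]
      · rw [if_neg h, if_neg h, mul_zero, mul_zero]
    simp_rw [h1]
    rw [Finset.sum_comm]
    refine Finset.sum_congr rfl fun z _ => ?_
    rw [← Finset.mul_sum]
  have hzle : ∑ z ∈ allZ l, cnt z * pn z ≤ 1 / 3 * zeros (fun _ => 1) (allZ l) := by
    rw [hzer, Finset.mul_sum]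
    refine Finset.sum_le_sum fun z hz => ?_
    by_cases hf : Free z
    · have h1 : cnt z = 0 := by
        rw [hcnt]
        refine Finset.sum_eq_zero fun q _ => Finset.sum_eq_zero fun p _ =>
          Finset.sum_eq_zero fun t _ => ?_
        rw [if_neg (hf q p t)]
      rw [h1, zero_mul, mul_zero]
    · rw [mul_comm]
      exact mul_le_mul_of_nonneg_right (hpnyes z hz hf) (hcnt0 z)
  -- the average
  have havg : 11 / 15 * (∑ ω, P ω * ((noSet (M ω) (input n) (Dom l) T).card : ℝ)) - a / 64 ≤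
      l * ∑ ω, P ω * zeros (fun _ => 1) (noSet (M ω) (input n) (Dom l) T) := by
    calc 11 / 15 * (∑ ω, P ω * ((noSet (M ω) (input n) (Dom l) T).card : ℝ)) - a / 64
        = ∑ ω, P ω * (11 / 15 * ((noSet (M ω) (input n) (Dom l) T).card : ℝ) - a / 64) := by
          simp_rw [mul_sub]
          rw [Finset.sum_sub_distrib, ← Finset.sum_mul, hP1, one_mul, Finset.mul_sum]
          congr 1
          exact Finset.sum_congr rfl fun ω _ => by ring
      _ ≤ ∑ ω, P ω * (l * zeros (fun _ => 1) (noSet (M ω) (input n) (Dom l) T)) := by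
          refine Finset.sum_le_sum fun ω _ => mul_le_mul_of_nonneg_left ?_ (hP ω)
          rw [ha]
          exact hprog ω
      _ = _ := by
          rw [Finset.mul_sum]
          exact Finset.sum_congr rfl fun ω _ => by ring
  rw [hsize, hzsum] at havg
  have hall := zeros_allZ (l := l)
  rw [← ha] at hall
  have hsqrt : (1024 : ℝ) ≤ √ (l : ℝ) := by
    refine Real.le_sqrt_of_sq_le ?_
    have : ((2 ^ 20 : ℕ) : ℝ) ≤ l := by exact_mod_cast hl20
    push_cast at this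
    linarith
  have hsmall : 32 / √ (l : ℝ) ≤ 1 / 32 := by
    rw [div_le_div_iff₀ (by linarith) (by norm_num)]
    linarith
  have h1 : (l : ℝ) * ∑ z ∈ allZ l, cnt z * pn z ≤ 1 / 3 * (a * (1 + 1 / 32)) := by
    calc (l : ℝ) * ∑ z ∈ allZ l, cnt z * pn z ≤ l * (1 / 3 * zeros (fun _ => 1) (allZ l)) :=
          mul_le_mul_of_nonneg_left hzle hlpos.le
      _ = 1 / 3 * (l * zeros (fun _ => 1) (allZ l)) := by ring
      _ ≤ 1 / 3 * (a * (1 + 32 / √ (l : ℝ))) := by linarith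
      _ ≤ 1 / 3 * (a * (1 + 1 / 32)) := by
          have : a * (32 / √ (l : ℝ)) ≤ a * (1 / 32) := mul_le_mul_of_nonneg_left hsmall ha0.le
          nlinarith
  nlinarith

open Classical in
/-- **Bounded error.** -/
theorem bounded_main {n T : ℕ} {S : ℝ} (hS : 1 ≤ S) (hSn : S ≤ n / Real.logb 2 n)
    {Z Ω : Type} [Fintype Z] [Fintype Ω]
    (hZ : (Fintype.card Z : ℝ) ≤ 2 ^ S) (P : Ω → ℝ) (hP : ∀ ω, 0 ≤ P ω) (hP1 : ∑ ω, P ω = 1)
    (M : Ω → DProg (Fin n × Fin n) (Bool × ℤ) Z)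
    (hyes : ∀ x, Valid n x → Yes n x →
      2 / 3 ≤ ∑ ω ∈ univ.filter (fun ω => (M ω).Says x T), P ω)
    (hno : ∀ x, Valid n x → ¬ Yes n x →
      2 / 3 ≤ ∑ ω ∈ univ.filter (fun ω => ¬ (M ω).Says x T), P ω) :
    (n : ℝ) ^ 2 * (Real.logb 2 (Real.logb 2 n) - 120) ≤ 3456 * T := by
  have hT0 : (0 : ℝ) ≤ T := Nat.cast_nonneg _
  obtain ⟨μ, hμ⟩ : ∃ μ, μ = Real.logb 2 n := ⟨_, rfl⟩
  obtain ⟨lam, hlam⟩ : ∃ lam, lam = Real.logb 2 μ := ⟨_, rfl⟩
  rw [← hμ] at hSn
  rw [← hμ, ← hlam]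
  by_cases hbig : lam ≤ 120
  · have : (n : ℝ) ^ 2 * (lam - 120) ≤ 0 :=
      mul_nonpos_of_nonneg_of_nonpos (by positivity) (by linarith)
    linarith
  push Not at hbig
  have hn0 : n ≠ 0 := by
    rintro rfl
    rw [hμ] at hlam
    rw [hlam] at hbig
    simp at hbig
    linarith
  have hnpos : (0 : ℝ) < n := by exact_mod_cast Nat.pos_of_ne_zero hn0
  have hμ0 : 0 ≤ μ := by
    rw [hμ]
    exact Real.logb_nonneg (by norm_num) (by exact_mod_cast Nat.pos_of_ne_zero hn0)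
  have hμpos : 0 < μ := by
    rcases hμ0.lt_or_eq with h | h
    · exact h
    · rw [← h] at hlam
      rw [hlam, Real.logb_zero] at hbig
      linarith
  have e1 : (2 : ℝ) ^ lam = μ := by
    rw [hlam]
    exact Real.rpow_logb (by norm_num) (by norm_num) hμpos
  have e2 : (2 : ℝ) ^ μ = n := by
    rw [hμ]
    exact Real.rpow_logb (by norm_num) (by norm_num) hnpos
  have hμ120 : (120 : ℝ) ≤ μ := by
    rw [← e1]
    have h1 : (120 : ℝ) ≤ 2 ^ (7 : ℝ) := by norm_num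
    exact h1.trans (Real.rpow_le_rpow_of_exponent_le (by norm_num) (by linarith))
  have hn6 : 6 ≤ n := by
    have h1 : (6 : ℝ) ≤ n := by
      rw [← e2]
      have h1 : (6 : ℝ) ≤ 2 ^ (3 : ℝ) := by norm_num
      exact h1.trans (Real.rpow_le_rpow_of_exponent_le (by norm_num) (by linarith))
    exact_mod_cast h1
  obtain ⟨l, hlp, hl1, hl2⟩ := Nat.exists_prime_lt_and_le_two_mul (n / 6) (by omega)
  haveI : Fact l.Prime := ⟨hlp⟩
  have hl3 : 3 * l ≤ n := by omega
  have hl6 : n ≤ 6 * l := by omega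
  have hl0 : (0 : ℝ) < l := by exact_mod_cast hlp.pos
  have hl6' : (n : ℝ) ≤ 6 * l := by exact_mod_cast hl6
  obtain ⟨k, hk⟩ : ∃ k, k = T / l ^ 2 + 1 := ⟨_, rfl⟩
  have hk0 : 0 < k := by rw [hk]; exact Nat.succ_pos _
  have hTk : T ≤ k * l ^ 2 := by
    have h := Nat.lt_mul_div_succ T (pow_pos hlp.pos 2)
    rw [hk, Nat.mul_comm]
    exact h.le
  have hTk2 : ((k : ℝ) - 1) * (l : ℝ) ^ 2 ≤ T := by
    have h1 : T / l ^ 2 * l ^ 2 ≤ T := Nat.div_mul_le_self _ _
    have h2 : ((T / l ^ 2 : ℕ) : ℝ) * (l : ℝ) ^ 2 ≤ T := by exact_mod_cast h1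
    have h3 : ((k : ℝ) - 1) = ((T / l ^ 2 : ℕ) : ℝ) := by
      rw [hk]
      push_cast
      ring
    rw [h3]
    exact h2
  have hn2 : (n : ℝ) ^ 2 ≤ 36 * (l : ℝ) ^ 2 := by nlinarith
  by_cases hkl : lam - 120 ≤ 96 * ((k : ℝ) - 1)
  · have hk1 : (0 : ℝ) ≤ (k : ℝ) - 1 := by
      have : (1 : ℝ) ≤ k := by exact_mod_cast hk0
      linarith
    calc (n : ℝ) ^ 2 * (lam - 120) ≤ (n : ℝ) ^ 2 * (96 * ((k : ℝ) - 1)) := by gcongr
      _ ≤ (36 * (l : ℝ) ^ 2) * (96 * ((k : ℝ) - 1)) := by gcongr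
      _ = 3456 * (((k : ℝ) - 1) * (l : ℝ) ^ 2) := by ring
      _ ≤ 3456 * T := by linarith
  · exfalso
    push Not at hkl
    have h1 : ((96 * k + 24 : ℕ) : ℝ) ≤ lam := by
      push_cast
      linarith
    have h2 : (2 : ℝ) ^ (96 * k + 24) ≤ μ := by
      rw [← e1, ← Real.rpow_natCast]
      exact Real.rpow_le_rpow_of_exponent_le (by norm_num) h1
    have hk2 : (k : ℝ) ≤ 2 ^ k := by
      have : k < 2 ^ k := Nat.lt_two_pow_self
      exact_mod_cast this.le
    have h3 : 396 * (k : ℝ) ^ 2 ≤ μ := by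
      calc 396 * (k : ℝ) ^ 2 ≤ 2 ^ 24 * (2 ^ k) ^ 2 := by
            have : (k : ℝ) ^ 2 ≤ (2 ^ k) ^ 2 := pow_le_pow_left₀ (Nat.cast_nonneg _) hk2 2
            have h4 : (0 : ℝ) ≤ (2 ^ k) ^ 2 := by positivity
            nlinarith
        _ = 2 ^ (24 + k * 2) := by rw [pow_add, pow_mul]
        _ ≤ 2 ^ (96 * k + 24) := pow_le_pow_right₀ (by norm_num) (by omega)
        _ ≤ μ := h2
    have hSl : 66 * (k : ℝ) ^ 2 * S ≤ l := by
      rw [le_div_iff₀ hμpos] at hSn
      have h4 : 6 * (66 * (k : ℝ) ^ 2 * S) ≤ n := by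
        calc 6 * (66 * (k : ℝ) ^ 2 * S) = S * (396 * (k : ℝ) ^ 2) := by ring
          _ ≤ S * μ := by gcongr
          _ ≤ n := hSn
      linarith
    have h5 := bounded_prime hl3 hk0 hTk hS hZ P hP hP1 M hyes hno hSl
    have h6 : (l : ℝ) < (2 : ℝ) ^ ((2 : ℝ) ^ (96 * k + 18)) := by
      have h7 : (l : ℝ) < ((2 ^ 2 ^ (96 * k + 18) : ℕ) : ℝ) := by exact_mod_cast h5
      refine lt_of_lt_of_eq h7 ?_
      push_cast
      rw [← Real.rpow_natCast]
      push_cast
      rfl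
    have h7 : (n : ℝ) < (2 : ℝ) ^ (3 + (2 : ℝ) ^ (96 * k + 18)) := by
      rw [Real.rpow_add (by norm_num)]
      have h8 : (2 : ℝ) ^ (3 : ℝ) = 8 := by norm_num
      rw [h8]
      linarith
    rw [← e2] at h7
    have h8 := (Real.rpow_lt_rpow_left_iff (by norm_num : (1 : ℝ) < 2)).mp h7
    have h9 : (2 : ℝ) ^ (96 * k + 24) = 64 * 2 ^ (96 * k + 18) := by
      rw [show 96 * k + 24 = 6 + (96 * k + 18) by ring, pow_add]
      norm_num
    have h10 : (1 : ℝ) ≤ 2 ^ (96 * k + 18) := one_le_pow₀ (by norm_num)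
    linarith

end Pool.Agent.K1H36.TB
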