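import Pool.Agent.K1H36.TB.Core

/-!
# Zero triangles in large classes
-/

set_option autoImplicit false

open Finset

namespace Pool.Agent.K1H36.TB

open Pool.Agent.K1H36.TS

variable {l : ℕ} [Fact l.Prime]

/-- The inputs for which the variables in `G` have frequent values. -/
theorem card_concentrated {τ y : ℝ} (hy : 1 ≤ y) (D : Finset (Vec l)) (hyD : y ^ 32 ≤ τ * D.card)
    (C : Finset (Ve l → Vec l)) (hne : C.Nonempty) (hD : ∀ z ∈ C, ∀ v, z v ∈ D) (W G : Finset (Ve l))
    (hGW : G ⊆ W) (hagree : ∀ z ∈ C, ∀ z' ∈ C, ∀ v, v ∉ W → z v = z' v) {b : ℕ}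
    (hb : b ≤ 32 * G.card) :
    ((C.filter fun z => ∀ v ∈ G, z v ∈ heavy τ C v).card : ℝ) * y ^ b ≤ (D.card : ℝ) ^ W.card := by
  classical
  have hy0 : 0 < y := by linarith
  have hDpos : (0 : ℝ) < D.card := by
    obtain ⟨z, hz⟩ := hne
    have : 0 < D.card := Finset.card_pos.mpr ⟨_, hD z hz (false, 0, 0)⟩
    exact_mod_cast this
  have hτ : 0 < τ := by
    have h1 : 0 < τ * D.card := lt_of_lt_of_le (by positivity) hyD
    exact pos_of_mul_pos_left h1 hDpos.le
  have h1 := card_le_prod W (C.filter fun z => ∀ v ∈ G, z v ∈ heavy τ C v)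
    (fun z hz z' hz' v hv => hagree z (Finset.mem_filter.mp hz).1 z' (Finset.mem_filter.mp hz').1 v hv)
  have h2 : ∏ v ∈ W, (((C.filter fun z => ∀ v ∈ G, z v ∈ heavy τ C v).image
      fun z => z v).card : ℝ) ≤ ∏ v ∈ W, (if v ∈ G then (D.card : ℝ) / y ^ 32 else D.card) := by
    refine Finset.prod_le_prod (fun _ _ => Nat.cast_nonneg _) fun v _ => ?_
    by_cases hv : v ∈ G
    · rw [if_pos hv]
      have h3 : ((C.filter fun z => ∀ v ∈ G, z v ∈ heavy τ C v).image fun z => z v).card ≤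
          (heavy τ C v).card := by
        refine Finset.card_le_card fun a ha => ?_
        rw [Finset.mem_image] at ha
        obtain ⟨z, hz, rfl⟩ := ha
        exact (Finset.mem_filter.mp hz).2 v hv
      have h4 := card_heavy (τ := τ) C hne v
      rw [le_div_iff₀ (by positivity)]
      calc (((C.filter fun z => ∀ v ∈ G, z v ∈ heavy τ C v).image fun z => z v).card : ℝ) * y ^ 32
          ≤ ((heavy τ C v).card : ℝ) * (τ * D.card) :=
            mul_le_mul (by exact_mod_cast h3) hyD (by positivity) (Nat.cast_nonneg _)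
        _ = (τ * (heavy τ C v).card) * D.card := by ring
        _ ≤ 1 * D.card := mul_le_mul_of_nonneg_right h4 hDpos.le
        _ = D.card := one_mul _
    · rw [if_neg hv]
      have h3 : ((C.filter fun z => ∀ v ∈ G, z v ∈ heavy τ C v).image fun z => z v).card ≤
          D.card := by
        refine Finset.card_le_card fun a ha => ?_
        rw [Finset.mem_image] at ha
        obtain ⟨z, hz, rfl⟩ := ha
        exact hD z (Finset.mem_filter.mp hz).1 v
      exact_mod_cast h3
  have h3 : ∏ v ∈ W, (if v ∈ G then (D.card : ℝ) / y ^ 32 else D.card) =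
      (D.card : ℝ) ^ W.card / (y ^ 32) ^ G.card := by
    have e1 : ∏ v ∈ W, (if v ∈ G then (D.card : ℝ) / y ^ 32 else D.card) =
        ∏ v ∈ W, ((D.card : ℝ) * (if v ∈ G then (y ^ 32)⁻¹ else 1)) := by
      refine Finset.prod_congr rfl fun v _ => ?_
      by_cases hv : v ∈ G
      · rw [if_pos hv, if_pos hv]
        rfl
      · rw [if_neg hv, if_neg hv, mul_one]
    rw [e1, Finset.prod_mul_distrib, Finset.prod_const, Finset.prod_ite_mem,
      Finset.inter_eq_right.mpr hGW, Finset.prod_const, inv_pow]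
    rfl
  rw [h3] at h2
  have h4 := h1.trans h2
  have h5 : y ^ b ≤ (y ^ 32) ^ G.card := by
    rw [← pow_mul]
    exact pow_le_pow_right₀ hy hb
  calc ((C.filter fun z => ∀ v ∈ G, z v ∈ heavy τ C v).card : ℝ) * y ^ b
      ≤ ((D.card : ℝ) ^ W.card / (y ^ 32) ^ G.card) * (y ^ 32) ^ G.card :=
        mul_le_mul h4 h5 (by positivity) (by positivity)
    _ = (D.card : ℝ) ^ W.card := by
        rw [div_mul_cancel₀]
        positivity

/-- **The number of the bad variables.** -/
theorem bad_count {τ y : ℝ} (hy : 1 ≤ y) (D : Finset (Vec l)) (hyD : y ^ 32 ≤ τ * D.card)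
    (C : Finset (Ve l → Vec l)) (hne : C.Nonempty) (hD : ∀ z ∈ C, ∀ v, z v ∈ D) (W : Finset (Ve l))
    (hagree : ∀ z ∈ C, ∀ z' ∈ C, ∀ v, v ∉ W → z v = z' v) (Bd : Finset (Ve l))
    (hBW : Bd ⊆ W) (hBd : ∀ v ∈ Bd, v ∈ bad τ C) :
    (C.card : ℝ) * y ^ Bd.card ≤ 32 * 2 ^ Bd.card * (D.card : ℝ) ^ W.card := by
  classical
  set b := Bd.card with hb
  set h : (Ve l → Vec l) → ℕ := fun z => (Bd.filter fun v => z v ∈ heavy τ C v).card with hh
  set C' := C.filter fun z => b ≤ 32 * h z with hC'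
  have hle : ∀ z, h z ≤ b := fun z => Finset.card_filter_le _ _
  -- most elements have many frequent values
  have h1 : (b : ℝ) * C.card ≤ 16 * ∑ z ∈ C, (h z : ℝ) := by
    have e1 : ∑ z ∈ C, (h z : ℝ) = ∑ v ∈ Bd, ((C.filter fun z => z v ∈ heavy τ C v).card : ℝ) := by
      have : ∑ z ∈ C, h z = ∑ v ∈ Bd, (C.filter fun z => z v ∈ heavy τ C v).card := by
        rw [hh]
        simp_rw [Finset.card_filter]
        rw [Finset.sum_comm]
      exact_mod_cast this
    rw [e1, Finset.mul_sum]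
    calc (b : ℝ) * C.card = ∑ _v ∈ Bd, (C.card : ℝ) := by
          rw [Finset.sum_const, nsmul_eq_mul]
      _ ≤ _ := by
          refine Finset.sum_le_sum fun v hv => ?_
          have h2 := hBd v hv
          rw [mem_bad] at h2
          have h3 := mass_add τ C v
          linarith
  have h2 : (b : ℝ) * C.card ≤ 32 * (b * C'.card) := by
    have e1 : ∑ z ∈ C, (32 * (h z : ℝ)) ≤ ∑ z ∈ C, ((if b ≤ 32 * h z then 32 * (b : ℝ) else 0) + b) := by
      refine Finset.sum_le_sum fun z _ => ?_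
      by_cases hz : b ≤ 32 * h z
      · rw [if_pos hz]
        have h3 : (h z : ℝ) ≤ b := by exact_mod_cast hle z
        have h4 : (0 : ℝ) ≤ b := Nat.cast_nonneg _
        linarith
      · rw [if_neg hz]
        have h3 : (32 * (h z : ℝ)) ≤ b := by
          push Not at hz
          exact_mod_cast hz.le
        linarith
    rw [Finset.sum_add_distrib, ← Finset.sum_filter, Finset.sum_const, Finset.sum_const,
      ← Finset.mul_sum, nsmul_eq_mul, nsmul_eq_mul] at e1
    have e2 : ((C.filter fun z => b ≤ 32 * h z).card : ℝ) = C'.card := rfl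
    rw [e2] at e1
    nlinarith
  have h3 : (C.card : ℝ) ≤ 32 * C'.card := by
    rcases Nat.eq_zero_or_pos b with hb0 | hb0
    · have : C' = C := by
        rw [hC', Finset.filter_eq_self]
        intro z _
        rw [hb0]
        exact Nat.zero_le _
      rw [this]
      have : (0 : ℝ) ≤ C.card := Nat.cast_nonneg _
      linarith
    · have hb1 : (0 : ℝ) < b := by exact_mod_cast hb0
      have : (b : ℝ) * C.card ≤ b * (32 * C'.card) := by linarith
      exact le_of_mul_le_mul_left this hb1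
  -- the union bound
  have h4 : C' ⊆ (Bd.powerset.filter fun G => b ≤ 32 * G.card).biUnion fun G =>
      C.filter fun z => ∀ v ∈ G, z v ∈ heavy τ C v := by
    intro z hz
    rw [hC', Finset.mem_filter] at hz
    rw [Finset.mem_biUnion]
    refine ⟨Bd.filter fun v => z v ∈ heavy τ C v, ?_, ?_⟩
    · rw [Finset.mem_filter, Finset.mem_powerset]
      exact ⟨Finset.filter_subset _ _, hz.2⟩
    · rw [Finset.mem_filter]
      exact ⟨hz.1, fun v hv => (Finset.mem_filter.mp hv).2⟩
  have hy0 : 0 < y := by linarith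
  have h5 : (C'.card : ℝ) * y ^ b ≤ 2 ^ b * (D.card : ℝ) ^ W.card := by
    calc (C'.card : ℝ) * y ^ b
        ≤ (∑ G ∈ Bd.powerset.filter (fun G => b ≤ 32 * G.card),
            ((C.filter fun z => ∀ v ∈ G, z v ∈ heavy τ C v).card : ℝ)) * y ^ b := by
          refine mul_le_mul_of_nonneg_right ?_ (by positivity)
          exact_mod_cast (Finset.card_le_card h4).trans Finset.card_biUnion_le
      _ = ∑ G ∈ Bd.powerset.filter (fun G => b ≤ 32 * G.card),
            ((C.filter fun z => ∀ v ∈ G, z v ∈ heavy τ C v).card : ℝ) * y ^ b :=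
          Finset.sum_mul _ _ _
      _ ≤ ∑ _G ∈ Bd.powerset.filter (fun G => b ≤ 32 * G.card), (D.card : ℝ) ^ W.card := by
          refine Finset.sum_le_sum fun G hG => ?_
          rw [Finset.mem_filter, Finset.mem_powerset] at hG
          exact card_concentrated hy D hyD C hne hD W G (hG.1.trans hBW) hagree hG.2
      _ = ((Bd.powerset.filter fun G => b ≤ 32 * G.card).card : ℝ) * (D.card : ℝ) ^ W.card := by
          rw [Finset.sum_const, nsmul_eq_mul]
      _ ≤ 2 ^ b * (D.card : ℝ) ^ W.card := by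
          refine mul_le_mul_of_nonneg_right ?_ (by positivity)
          have : (Bd.powerset.filter fun G => b ≤ 32 * G.card).card ≤ 2 ^ b := by
            rw [hb, ← Finset.card_powerset]
            exact Finset.card_filter_le _ _
          exact_mod_cast this
  calc (C.card : ℝ) * y ^ b ≤ (32 * C'.card) * y ^ b :=
        mul_le_mul_of_nonneg_right h3 (by positivity)
    _ = 32 * ((C'.card : ℝ) * y ^ b) := by ring
    _ ≤ 32 * (2 ^ b * (D.card : ℝ) ^ W.card) := by linarith
    _ = _ := by ring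

/-- The weighted number of the pairs. -/
def pairs (u : Ve l → ℝ) : ℝ := ∑ q, (∑ p, u (false, q, p)) * ∑ t, u (true, q, t)

/-- The weighted number of the zero triangles of the elements of `C`. -/
noncomputable def zeros (u : Ve l → ℝ) (C : Finset (Ve l → Vec l)) : ℝ :=
  ∑ q, ∑ p, ∑ t, u (false, q, p) * u (true, q, t) *
    ((C.filter fun z => z (false, q, p) + z (true, q, t) = tgt p t).card : ℝ)

theorem zeros_nonneg {u : Ve l → ℝ} (hu : ∀ v, 0 ≤ u v) (C : Finset (Ve l → Vec l)) :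
    0 ≤ zeros u C := by
  unfold zeros
  refine Finset.sum_nonneg fun q _ => Finset.sum_nonneg fun p _ => Finset.sum_nonneg fun t _ => ?_
  exact mul_nonneg (mul_nonneg (hu _) (hu _)) (Nat.cast_nonneg _)

theorem pairs_le {u : Ve l → ℝ} {U : ℝ} (hu : ∀ v, 0 ≤ u v ∧ u v ≤ U) :
    pairs u ≤ (l : ℝ) ^ 3 * U ^ 2 := by
  have hs : ∀ (i : Bool) (q : ZMod l), ∑ p, u (i, q, p) ≤ l * U := by
    intro i q
    calc ∑ p, u (i, q, p) ≤ ∑ _p : ZMod l, U := Finset.sum_le_sum fun p _ => (hu _).2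
      _ = l * U := by rw [Finset.sum_const, Finset.card_univ, ZMod.card, nsmul_eq_mul]
  have hs0 : ∀ (i : Bool) (q : ZMod l), 0 ≤ ∑ p, u (i, q, p) :=
    fun i q => Finset.sum_nonneg fun p _ => (hu _).1
  calc pairs u ≤ ∑ _q : ZMod l, (l * U) * (l * U) := by
        refine Finset.sum_le_sum fun q _ => ?_
        exact mul_le_mul (hs _ _) (hs _ _) (hs0 _ _) ((hs0 false q).trans (hs false q))
    _ = (l : ℝ) ^ 3 * U ^ 2 := by
        rw [Finset.sum_const, Finset.card_univ, ZMod.card, nsmul_eq_mul]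
        ring

/-- **Zero triangles in a large rectangle.** -/
theorem rect_large {τ U : ℝ} (hτ : 0 ≤ τ) (hU : 0 ≤ U) (C : Finset (Ve l → Vec l))
    (hne : C.Nonempty) (B : Finset (Ve l))
    (hC : ∀ z ∈ C, ∀ z' ∈ C, mix B z z' ∈ C) (u : Ve l → ℝ) (hu : ∀ v, 0 ≤ u v ∧ u v ≤ U)
    (huB : ∀ q p, u (false, q, p) ≠ 0 → (false, q, p) ∉ B)
    (huB' : ∀ q t, u (true, q, t) ≠ 0 → (true, q, t) ∈ B) (Bd : Finset (Ve l))
    (hBd : ∀ v ∈ bad τ C, u v ≠ 0 → v ∈ Bd) :
    (C.card : ℝ) * ((15 / 16) ^ 2 * pairs u / (l : ℝ) ^ 4 - U ^ 2 * l * Bd.card / (l : ℝ) ^ 4 -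
      2 * √ (l : ℝ) * ((l : ℝ) ^ 2 * U ^ 2 * τ)) ≤ zeros u C := by
  classical
  have hlpos : (0 : ℝ) < l := by exact_mod_cast (Fact.out : l.Prime).pos
  have hc : (0 : ℝ) < C.card := by exact_mod_cast hne.card_pos
  -- the number of the bad variables in a bucket
  set nb : Bool → ZMod l → ℝ := fun i q => ((univ.filter fun p => (i, q, p) ∈ Bd).card : ℝ) with hnb
  have hnb0 : ∀ i q, 0 ≤ nb i q := fun i q => Nat.cast_nonneg _
  have hsumnb : ∑ q, (nb false q + nb true q) ≤ Bd.card := by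
    have h1 : (∑ q, ((univ.filter fun p => ((false, q, p) : Ve l) ∈ Bd).card +
        (univ.filter fun p => ((true, q, p) : Ve l) ∈ Bd).card)) ≤ Bd.card := by
      have h2 : Bd.card = ∑ v : Ve l, if v ∈ Bd then 1 else 0 := by
        rw [← Finset.card_filter]
        congr 1
        ext v
        simp
      rw [h2, Fintype.sum_prod_type, Fintype.sum_bool, Fintype.sum_prod_type,
        Fintype.sum_prod_type, ← Finset.sum_add_distrib]
      refine Finset.sum_le_sum fun q _ => ?_
      rw [Finset.card_filter, Finset.card_filter, add_comm]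
    have h3 : ((∑ q, ((univ.filter fun p => ((false, q, p) : Ve l) ∈ Bd).card +
        (univ.filter fun p => ((true, q, p) : Ve l) ∈ Bd).card) : ℕ) : ℝ) ≤ Bd.card := by
      exact_mod_cast h1
    refine le_trans (le_of_eq ?_) h3
    rw [hnb]
    push_cast
    rfl
  -- lower bounds for the mass
  have hmass : ∀ (i : Bool) (q : ZMod l),
      (C.card : ℝ) * (15 / 16 * (∑ p, u (i, q, p) - U * nb i q)) ≤
        ∑ p, u (i, q, p) * mass τ C (i, q, p) := by
    intro i q
    have h1 : ∀ p, (C.card : ℝ) * (15 / 16 * (u (i, q, p) - U * (if (i, q, p) ∈ Bd then 1 else 0))) ≤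
        u (i, q, p) * mass τ C (i, q, p) := by
      intro p
      by_cases hp : ((i, q, p) : Ve l) ∈ Bd
      · rw [if_pos hp, mul_one]
        have h2 : u (i, q, p) - U ≤ 0 := by linarith [(hu (i, q, p)).2]
        have h3 : (C.card : ℝ) * (15 / 16 * (u (i, q, p) - U)) ≤ 0 :=
          mul_nonpos_of_nonneg_of_nonpos hc.le (by linarith)
        exact h3.trans (mul_nonneg (hu _).1 (mass_nonneg _ _ _))
      · rw [if_neg hp, mul_zero, sub_zero]
        by_cases h0 : u (i, q, p) = 0
        · rw [h0]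
          simp
        · have h2 : ¬ ((i, q, p) : Ve l) ∈ bad τ C := fun h => hp (hBd _ h h0)
          rw [mem_bad, not_lt] at h2
          have h3 : 15 / 16 * (C.card : ℝ) ≤ mass τ C (i, q, p) := by linarith
          calc (C.card : ℝ) * (15 / 16 * u (i, q, p)) = u (i, q, p) * (15 / 16 * C.card) := by ring
            _ ≤ _ := mul_le_mul_of_nonneg_left h3 (hu _).1
    calc (C.card : ℝ) * (15 / 16 * (∑ p, u (i, q, p) - U * nb i q))
        = ∑ p, (C.card : ℝ) *
            (15 / 16 * (u (i, q, p) - U * (if (i, q, p) ∈ Bd then 1 else 0))) := by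
          rw [← Finset.mul_sum, ← Finset.mul_sum, Finset.sum_sub_distrib, ← Finset.mul_sum]
          congr 4
          rw [hnb]
          simp only
          rw [Finset.card_filter]
          push_cast
          rfl
      _ ≤ _ := Finset.sum_le_sum fun p _ => h1 p
  have hmass0 : ∀ (i : Bool) (q : ZMod l), 0 ≤ ∑ p, u (i, q, p) * mass τ C (i, q, p) :=
    fun i q => Finset.sum_nonneg fun p _ => mul_nonneg (hu _).1 (mass_nonneg _ _ _)
  have hs0 : ∀ (i : Bool) (q : ZMod l), 0 ≤ ∑ p, u (i, q, p) :=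
    fun i q => Finset.sum_nonneg fun p _ => (hu _).1
  have hsl : ∀ (i : Bool) (q : ZMod l), ∑ p, u (i, q, p) ≤ l * U := by
    intro i q
    calc ∑ p, u (i, q, p) ≤ ∑ _p : ZMod l, U := Finset.sum_le_sum fun p _ => (hu _).2
      _ = l * U := by rw [Finset.sum_const, Finset.card_univ, ZMod.card, nsmul_eq_mul]
  -- the product
  have hprod : ∀ q, (C.card : ℝ) ^ 2 * ((15 / 16) ^ 2 * ((∑ p, u (false, q, p)) * ∑ t, u (true, q, t)) -
      U ^ 2 * l * (nb false q + nb true q)) ≤
      (∑ p, u (false, q, p) * mass τ C (false, q, p)) *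
        (∑ t, u (true, q, t) * mass τ C (true, q, t)) := by
    intro q
    obtain ⟨s, hs⟩ : ∃ s, s = ∑ p, u (false, q, p) := ⟨_, rfl⟩
    obtain ⟨s', hs'⟩ : ∃ s', s' = ∑ p, u (true, q, p) := ⟨_, rfl⟩
    obtain ⟨x, hx⟩ : ∃ x, x = max 0 (s - U * nb false q) := ⟨_, rfl⟩
    obtain ⟨x', hx'⟩ : ∃ x', x' = max 0 (s' - U * nb true q) := ⟨_, rfl⟩
    have m1 : (C.card : ℝ) * (15 / 16 * x) ≤ ∑ p, u (false, q, p) * mass τ C (false, q, p) := by
      have h1 := hmass false q
      rw [← hs] at h1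
      rcases le_total 0 (s - U * nb false q) with h | h
      · rw [hx, max_eq_right h]
        exact h1
      · rw [hx, max_eq_left h, mul_zero, mul_zero]
        exact hmass0 false q
    have m2 : (C.card : ℝ) * (15 / 16 * x') ≤ ∑ p, u (true, q, p) * mass τ C (true, q, p) := by
      have h1 := hmass true q
      rw [← hs'] at h1
      rcases le_total 0 (s' - U * nb true q) with h | h
      · rw [hx', max_eq_right h]
        exact h1
      · rw [hx', max_eq_left h, mul_zero, mul_zero]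
        exact hmass0 true q
    have x0 : 0 ≤ x := by rw [hx]; exact le_max_left _ _
    have x0' : 0 ≤ x' := by rw [hx']; exact le_max_left _ _
    have s0 : 0 ≤ s := by rw [hs]; exact hs0 _ _
    have s0' : 0 ≤ s' := by rw [hs']; exact hs0 _ _
    have sl : s ≤ l * U := by rw [hs]; exact hsl _ _
    have sl' : s' ≤ l * U := by rw [hs']; exact hsl _ _
    have xs : x ≤ s := by
      rw [hx]
      refine max_le s0 ?_
      have := mul_nonneg hU (hnb0 false q)
      linarith
    have d1 : s - x ≤ U * nb false q := by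
      have : s - U * nb false q ≤ x := by rw [hx]; exact le_max_right _ _
      linarith
    have d2 : s' - x' ≤ U * nb true q := by
      have : s' - U * nb true q ≤ x' := by rw [hx']; exact le_max_right _ _
      linarith
    have m3 : ((C.card : ℝ) * (15 / 16 * x)) * ((C.card : ℝ) * (15 / 16 * x')) ≤
        (∑ p, u (false, q, p) * mass τ C (false, q, p)) *
          (∑ p, u (true, q, p) * mass τ C (true, q, p)) :=
      mul_le_mul m1 m2 (by positivity) (hmass0 false q)
    have m4 : s * s' - x * x' ≤ U ^ 2 * l * (nb false q + nb true q) := by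
      have e1 : (s - x) * s' ≤ (U * nb false q) * (l * U) := by
        calc (s - x) * s' ≤ (U * nb false q) * s' := mul_le_mul_of_nonneg_right d1 s0'
          _ ≤ (U * nb false q) * (l * U) :=
              mul_le_mul_of_nonneg_left sl' (mul_nonneg hU (hnb0 _ _))
      have e2 : x * (s' - x') ≤ (l * U) * (U * nb true q) := by
        calc x * (s' - x') ≤ x * (U * nb true q) := mul_le_mul_of_nonneg_left d2 x0
          _ ≤ (l * U) * (U * nb true q) :=
              mul_le_mul_of_nonneg_right (xs.trans sl) (mul_nonneg hU (hnb0 _ _))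
      calc s * s' - x * x' = (s - x) * s' + x * (s' - x') := by ring
        _ ≤ (U * nb false q) * (l * U) + (l * U) * (U * nb true q) := add_le_add e1 e2
        _ = _ := by ring
    have m5 : 0 ≤ U ^ 2 * l * (nb false q + nb true q) := by
      have := hnb0 false q
      have := hnb0 true q
      positivity
    rw [← hs, ← hs']
    refine le_trans ?_ m3
    have m6 : (15 / 16 : ℝ) ^ 2 * (s * s') - U ^ 2 * l * (nb false q + nb true q) ≤
        (15 / 16) ^ 2 * (x * x') := by
      nlinarith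
    calc (C.card : ℝ) ^ 2 * ((15 / 16) ^ 2 * (s * s') - U ^ 2 * l * (nb false q + nb true q))
        ≤ (C.card : ℝ) ^ 2 * ((15 / 16) ^ 2 * (x * x')) :=
          mul_le_mul_of_nonneg_left m6 (by positivity)
      _ = _ := by ring
  -- the sum over the buckets
  have hb : ∀ q, (C.card : ℝ) * ((15 / 16) ^ 2 * ((∑ p, u (false, q, p)) * ∑ t, u (true, q, t)) /
      (l : ℝ) ^ 4 - U ^ 2 * l * (nb false q + nb true q) / (l : ℝ) ^ 4 -
      2 * √ (l : ℝ) * (l * U ^ 2 * τ)) ≤
      ∑ p, ∑ t, u (false, q, p) * u (true, q, t) *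
        ((C.filter fun z => z (false, q, p) + z (true, q, t) = tgt p t).card : ℝ) := by
    intro q
    have h1 := bucket hτ hU C B hC q (fun p => u (false, q, p)) (fun t => u (true, q, t))
      (fun p => hu _) (fun t => hu _) (huB q) (huB' q)
    have h2 := div_le_div_of_nonneg_right (hprod q) (by positivity : (0 : ℝ) ≤ (l : ℝ) ^ 4)
    have h3 : (C.card : ℝ) * ((C.card : ℝ) * ((15 / 16) ^ 2 *
        ((∑ p, u (false, q, p)) * ∑ t, u (true, q, t)) / (l : ℝ) ^ 4 -
        U ^ 2 * l * (nb false q + nb true q) / (l : ℝ) ^ 4 - 2 * √ (l : ℝ) * (l * U ^ 2 * τ))) ≤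
        (C.card : ℝ) * ∑ p, ∑ t, u (false, q, p) * u (true, q, t) *
        ((C.filter fun z => z (false, q, p) + z (true, q, t) = tgt p t).card : ℝ) := by
      refine le_trans (le_of_eq ?_) ((sub_le_sub_right h2 _).trans h1)
      ring
    exact le_of_mul_le_mul_left h3 hc
  calc (C.card : ℝ) * ((15 / 16) ^ 2 * pairs u / (l : ℝ) ^ 4 - U ^ 2 * l * Bd.card / (l : ℝ) ^ 4 -
        2 * √ (l : ℝ) * ((l : ℝ) ^ 2 * U ^ 2 * τ))
      ≤ (C.card : ℝ) * ((15 / 16) ^ 2 * pairs u / (l : ℝ) ^ 4 -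
        U ^ 2 * l * (∑ q, (nb false q + nb true q)) / (l : ℝ) ^ 4 -
        2 * √ (l : ℝ) * ((l : ℝ) ^ 2 * U ^ 2 * τ)) := by
        refine mul_le_mul_of_nonneg_left ?_ hc.le
        have h1 : U ^ 2 * l * (∑ q, (nb false q + nb true q)) / (l : ℝ) ^ 4 ≤
            U ^ 2 * l * Bd.card / (l : ℝ) ^ 4 := by
          refine div_le_div_of_nonneg_right ?_ (by positivity)
          exact mul_le_mul_of_nonneg_left hsumnb (by positivity)
        linarith
    _ = ∑ q, (C.card : ℝ) * ((15 / 16) ^ 2 * ((∑ p, u (false, q, p)) * ∑ t, u (true, q, t)) /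
      (l : ℝ) ^ 4 - U ^ 2 * l * (nb false q + nb true q) / (l : ℝ) ^ 4 -
      2 * √ (l : ℝ) * (l * U ^ 2 * τ)) := by
        rw [← Finset.mul_sum, Finset.sum_sub_distrib, Finset.sum_sub_distrib, Finset.sum_const,
          Finset.card_univ, ZMod.card, nsmul_eq_mul, ← Finset.sum_div, ← Finset.sum_div,
          ← Finset.mul_sum, ← Finset.mul_sum]
        unfold pairs
        ring
    _ ≤ zeros u C := Finset.sum_le_sum fun q _ => hb q

/-- **Zero triangles in a rectangle.** -/
theorem rect_any {τ U : ℝ} {s e b : ℕ} (hτ : 0 ≤ τ) (hU : 0 ≤ U) (D : Finset (Vec l))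
    (hs : (2 : ℝ) ^ (32 * s) ≤ τ * D.card) (hb : e + 5 < (s - 1) * (b + 1))
    (C : Finset (Ve l → Vec l)) (hne : C.Nonempty) (hD : ∀ z ∈ C, ∀ v, z v ∈ D)
    (A B : Finset (Ve l)) (hAB : Disjoint A B)
    (hagree : ∀ z ∈ C, ∀ z' ∈ C, ∀ v, v ∉ A → v ∉ B → z v = z' v)
    (hC : ∀ z ∈ C, ∀ z' ∈ C, mix B z z' ∈ C) (u : Ve l → ℝ) (hu : ∀ v, 0 ≤ u v ∧ u v ≤ U)
    (huA : ∀ q p, u (false, q, p) ≠ 0 → (false, q, p) ∈ A)
    (huB : ∀ q t, u (true, q, t) ≠ 0 → (true, q, t) ∈ B) :
    (C.card : ℝ) * ((15 / 16) ^ 2 * pairs u / (l : ℝ) ^ 4 - U ^ 2 * l * b / (l : ℝ) ^ 4 -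
      2 * √ (l : ℝ) * ((l : ℝ) ^ 2 * U ^ 2 * τ)) -
      U ^ 2 / l * ((D.card : ℝ) ^ (A ∪ B).card / 2 ^ e) ≤ zeros u C := by
  classical
  have hlpos : (0 : ℝ) < l := by exact_mod_cast (Fact.out : l.Prime).pos
  have hc : (0 : ℝ) < C.card := by exact_mod_cast hne.card_pos
  by_cases hlarge : (D.card : ℝ) ^ (A ∪ B).card ≤ 2 ^ e * C.card
  · -- a large rectangle
    set Bd := (A ∪ B).filter fun v => v ∈ bad τ C with hBd
    have h1 := bad_count (one_le_pow₀ (by norm_num : (1 : ℝ) ≤ 2) : (1 : ℝ) ≤ 2 ^ s) D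
      (by rw [← pow_mul, Nat.mul_comm]; exact hs) C hne hD (A ∪ B)
      (fun z hz z' hz' v hv => by
        rw [Finset.mem_union] at hv
        push Not at hv
        exact hagree z hz z' hz' v hv.1 hv.2) Bd (Finset.filter_subset _ _)
      (fun v hv => (Finset.mem_filter.mp hv).2)
    have h2 : (2 : ℝ) ^ (s * Bd.card) ≤ 2 ^ (5 + Bd.card + e) := by
      have h3 : (C.card : ℝ) * 2 ^ (s * Bd.card) ≤ C.card * 2 ^ (5 + Bd.card + e) := by
        calc (C.card : ℝ) * 2 ^ (s * Bd.card) = (C.card : ℝ) * (2 ^ s) ^ Bd.card := by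
              rw [pow_mul]
          _ ≤ 32 * 2 ^ Bd.card * (D.card : ℝ) ^ (A ∪ B).card := h1
          _ ≤ 32 * 2 ^ Bd.card * (2 ^ e * C.card) := by gcongr
          _ = C.card * 2 ^ (5 + Bd.card + e) := by
              rw [pow_add, pow_add]
              ring
      exact le_of_mul_le_mul_left h3 hc
    have h3 : s * Bd.card ≤ 5 + Bd.card + e :=
      (pow_le_pow_iff_right₀ (by norm_num : (1 : ℝ) < 2)).mp h2
    have h4 : Bd.card ≤ b := by
      by_contra hcon
      push Not at hcon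
      have h5 : (s - 1) * (b + 1) ≤ (s - 1) * Bd.card := Nat.mul_le_mul_left _ hcon
      have h6 : (s - 1) * Bd.card = s * Bd.card - Bd.card := by
        rw [Nat.sub_mul, one_mul]
      omega
    have h5 := rect_large hτ hU C hne B hC u hu
      (fun q p h => Finset.disjoint_left.mp hAB (huA q p h)) huB Bd
      (fun v hv h0 => by
        rw [hBd, Finset.mem_filter, Finset.mem_union]
        refine ⟨?_, hv⟩
        obtain ⟨i, q, p⟩ := v
        cases i
        · exact Or.inl (huA q p h0)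
        · exact Or.inr (huB q p h0))
    have h6 : (Bd.card : ℝ) ≤ b := by exact_mod_cast h4
    have h7 : U ^ 2 * l * Bd.card / (l : ℝ) ^ 4 ≤ U ^ 2 * l * b / (l : ℝ) ^ 4 := by
      refine div_le_div_of_nonneg_right ?_ (by positivity)
      exact mul_le_mul_of_nonneg_left h6 (by positivity)
    have h8 : 0 ≤ U ^ 2 / l * ((D.card : ℝ) ^ (A ∪ B).card / 2 ^ e) := by positivity
    refine le_trans ?_ h5
    have h9 : (C.card : ℝ) * ((15 / 16) ^ 2 * pairs u / (l : ℝ) ^ 4 - U ^ 2 * l * b / (l : ℝ) ^ 4 -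
      2 * √ (l : ℝ) * ((l : ℝ) ^ 2 * U ^ 2 * τ)) ≤ (C.card : ℝ) * ((15 / 16) ^ 2 * pairs u /
      (l : ℝ) ^ 4 - U ^ 2 * l * Bd.card / (l : ℝ) ^ 4 -
      2 * √ (l : ℝ) * ((l : ℝ) ^ 2 * U ^ 2 * τ)) := by
      refine mul_le_mul_of_nonneg_left ?_ hc.le
      linarith
    linarith
  · -- a small rectangle
    push Not at hlarge
    have h1 : (C.card : ℝ) ≤ (D.card : ℝ) ^ (A ∪ B).card / 2 ^ e := by
      rw [le_div_iff₀ (by positivity)]
      linarith
    have h2 : (15 / 16) ^ 2 * pairs u / (l : ℝ) ^ 4 ≤ U ^ 2 / l := by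
      have h3 := pairs_le hu
      have h4 : 0 ≤ pairs u := Finset.sum_nonneg fun q _ => mul_nonneg
        (Finset.sum_nonneg fun p _ => (hu _).1) (Finset.sum_nonneg fun p _ => (hu _).1)
      rw [div_le_div_iff₀ (by positivity) hlpos]
      nlinarith
    have h3 : 0 ≤ U ^ 2 * l * b / (l : ℝ) ^ 4 := by positivity
    have h4 : 0 ≤ 2 * √ (l : ℝ) * ((l : ℝ) ^ 2 * U ^ 2 * τ) := by positivity
    have h5 := zeros_nonneg (fun v => (hu v).1) C
    have h6 : (C.card : ℝ) * ((15 / 16) ^ 2 * pairs u / (l : ℝ) ^ 4 - U ^ 2 * l * b / (l : ℝ) ^ 4 -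
      2 * √ (l : ℝ) * ((l : ℝ) ^ 2 * U ^ 2 * τ)) ≤ C.card * (U ^ 2 / l) :=
      mul_le_mul_of_nonneg_left (by linarith) hc.le
    have h7 : (C.card : ℝ) * (U ^ 2 / l) ≤ U ^ 2 / l * ((D.card : ℝ) ^ (A ∪ B).card / 2 ^ e) := by
      rw [mul_comm]
      exact mul_le_mul_of_nonneg_left h1 (by positivity)
    linarith

end Pool.Agent.K1H36.TB
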