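import Pool.Agent.K1H36.TB.Defs
import Pool.Agent.K1H36.TB.Rect

/-!
# The classes of the inputs
-/

set_option autoImplicit false

open Finset

namespace Pool.Agent.K1H36.TB

open Pool.Agent.K1H36.TS

section stems

variable {l : ℕ} [Fact l.Prime]

theorem zeros_fiber (u : Ve l → ℝ) (C : Finset (Ve l → Vec l)) {α : Type*} [DecidableEq α]
    (f : (Ve l → Vec l) → α) (t : Finset α) (ht : ∀ z ∈ C, f z ∈ t) :
    zeros u C = ∑ σ ∈ t, zeros u (C.filter fun z => f z = σ) := by
  unfold zeros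
  symm
  rw [Finset.sum_comm]
  refine Finset.sum_congr rfl fun q _ => ?_
  rw [Finset.sum_comm]
  refine Finset.sum_congr rfl fun p _ => ?_
  rw [Finset.sum_comm]
  refine Finset.sum_congr rfl fun t' _ => ?_
  rw [← Finset.mul_sum]
  congr 1
  have h := Finset.card_eq_sum_card_fiberwise (f := f)
    (s := C.filter fun z => z (false, q, p) + z (true, q, t') = tgt p t') (t := t)
    (fun z hz => Finset.mem_coe.mpr (ht z (Finset.mem_filter.mp hz).1))
  rw [h]
  push_cast
  refine Finset.sum_congr rfl fun σ _ => ?_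
  congr 1
  congr 1
  ext z
  simp only [Finset.mem_filter]
  tauto

/-- **Zero triangles in a class.** -/
theorem class_ineq {τ U : ℝ} {s e b : ℕ} (hτ : 0 ≤ τ) (hU : 0 ≤ U) (D : Finset (Vec l))
    (hs : (2 : ℝ) ^ (32 * s) ≤ τ * D.card) (hb : e + 5 < (s - 1) * (b + 1))
    (C : Finset (Ve l → Vec l)) (hD : ∀ z ∈ C, ∀ v, z v ∈ D)
    (A B : Finset (Ve l)) (hAB : Disjoint A B)
    (hC : ∀ z ∈ C, ∀ z' ∈ C, (∀ v, v ∉ A → v ∉ B → z v = z' v) → mix B z z' ∈ C)
    (u : Ve l → ℝ) (hu : ∀ v, 0 ≤ u v ∧ u v ≤ U)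
    (huA : ∀ q p, u (false, q, p) ≠ 0 → (false, q, p) ∈ A)
    (huB : ∀ q t, u (true, q, t) ≠ 0 → (true, q, t) ∈ B) :
    (C.card : ℝ) * ((15 / 16) ^ 2 * pairs u / (l : ℝ) ^ 4 - U ^ 2 * l * b / (l : ℝ) ^ 4 -
      2 * √ (l : ℝ) * ((l : ℝ) ^ 2 * U ^ 2 * τ)) -
      U ^ 2 / l * ((D.card : ℝ) ^ (2 * l ^ 2) / 2 ^ e) ≤ zeros u C := by
  classical
  have hlpos : (0 : ℝ) < l := by exact_mod_cast (Fact.out : l.Prime).pos
  obtain ⟨W, hW⟩ : ∃ W, W = A ∪ B := ⟨_, rfl⟩
  obtain ⟨E, hE⟩ : ∃ E : ℝ, E = (15 / 16) ^ 2 * pairs u / (l : ℝ) ^ 4 -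
    U ^ 2 * l * b / (l : ℝ) ^ 4 - 2 * √ (l : ℝ) * ((l : ℝ) ^ 2 * U ^ 2 * τ) := ⟨_, rfl⟩
  rw [← hE]
  obtain ⟨stem, hstem⟩ : ∃ stem : (Ve l → Vec l) → (Ve l → Vec l),
    stem = fun z v => if v ∈ W then 0 else z v := ⟨_, rfl⟩
  have hfib : ∀ σ ∈ C.image stem, ((C.filter fun z => stem z = σ).card : ℝ) * E -
      U ^ 2 / l * ((D.card : ℝ) ^ W.card / 2 ^ e) ≤ zeros u (C.filter fun z => stem z = σ) := by
    intro σ hσ
    have hag : ∀ z ∈ C.filter (fun z => stem z = σ), ∀ z' ∈ C.filter (fun z => stem z = σ),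
        ∀ v, v ∉ A → v ∉ B → z v = z' v := by
      intro z hz z' hz' v h1 h2
      have e1 := congrFun (Finset.mem_filter.mp hz).2 v
      have e2 := congrFun (Finset.mem_filter.mp hz').2 v
      have h3 : v ∉ W := by
        rw [hW, Finset.mem_union]
        push Not
        exact ⟨h1, h2⟩
      rw [hstem] at e1 e2
      simp only [if_neg h3] at e1 e2
      rw [e1, e2]
    have hne : (C.filter fun z => stem z = σ).Nonempty := by
      rw [Finset.mem_image] at hσ
      obtain ⟨z, hz, hzσ⟩ := hσ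
      exact ⟨z, Finset.mem_filter.mpr ⟨hz, hzσ⟩⟩
    rw [hE, hW]
    refine rect_any hτ hU D hs hb _ hne (fun z hz => hD z (Finset.mem_filter.mp hz).1) A B hAB hag
      ?_ u hu huA huB
    intro z hz z' hz'
    rw [Finset.mem_filter]
    refine ⟨hC z (Finset.mem_filter.mp hz).1 z' (Finset.mem_filter.mp hz').1 (hag z hz z' hz'), ?_⟩
    rw [← (Finset.mem_filter.mp hz).2, hstem]
    funext v
    simp only
    by_cases hv : v ∈ W
    · rw [if_pos hv, if_pos hv]
    · rw [if_neg hv, if_neg hv]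
      have : v ∉ B := fun h => hv (by rw [hW, Finset.mem_union]; exact Or.inr h)
      simp only [mix, if_neg this]
  have hcard : (C.card : ℝ) = ∑ σ ∈ C.image stem, ((C.filter fun z => stem z = σ).card : ℝ) := by
    have := Finset.card_eq_sum_card_image stem C
    exact_mod_cast this
  have hzer := zeros_fiber u C stem (C.image stem) fun z hz => Finset.mem_image_of_mem _ hz
  have hstems : ((C.image stem).card : ℝ) * (D.card : ℝ) ^ W.card ≤ (D.card : ℝ) ^ (2 * l ^ 2) := by
    have h1 := card_stems W D (0 : Vec l) C hD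
    rw [Fintype.card_prod, Fintype.card_prod, Fintype.card_bool, ZMod.card] at h1
    have h2 : 2 * (l * l) = 2 * l ^ 2 := by ring
    rw [h2, ← hstem] at h1
    have h3 : W.card ≤ 2 * l ^ 2 := by
      have := Finset.card_le_univ W
      rw [Fintype.card_prod, Fintype.card_prod, Fintype.card_bool, ZMod.card, h2] at this
      exact this
    calc ((C.image stem).card : ℝ) * (D.card : ℝ) ^ W.card
        ≤ (D.card : ℝ) ^ (2 * l ^ 2 - W.card) * (D.card : ℝ) ^ W.card := by
          refine mul_le_mul_of_nonneg_right ?_ (by positivity)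
          exact_mod_cast h1
      _ = (D.card : ℝ) ^ (2 * l ^ 2) := by
          rw [← pow_add]
          congr 1
          omega
  rw [hzer]
  refine le_trans ?_ (Finset.sum_le_sum hfib)
  rw [Finset.sum_sub_distrib, ← Finset.sum_mul, ← hcard, Finset.sum_const, nsmul_eq_mul]
  have h1 : ((C.image stem).card : ℝ) * (U ^ 2 / l * ((D.card : ℝ) ^ W.card / 2 ^ e)) ≤
      U ^ 2 / l * ((D.card : ℝ) ^ (2 * l ^ 2) / 2 ^ e) := by
    calc ((C.image stem).card : ℝ) * (U ^ 2 / l * ((D.card : ℝ) ^ W.card / 2 ^ e))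
        = U ^ 2 / l * ((((C.image stem).card : ℝ) * (D.card : ℝ) ^ W.card) / 2 ^ e) := by ring
      _ ≤ _ := by
          refine mul_le_mul_of_nonneg_left ?_ (by positivity)
          exact div_le_div_of_nonneg_right hstems (by positivity)
  linarith

end stems

/-! ### The runs -/

section runs

variable {l : ℕ} [Fact l.Prime] {ι X Z : Type} (M : DProg ι X Z)
  (I : (Ve l → Vec l) → ι → X) (ρ : ι → Option (Ve l)) (L T r K : ℕ)

/-- The end of the block number `j`. -/
def bd (j : ℕ) : ℕ := min (j * L) T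

open Classical in
/-- The variables which are read in the block number `j`. -/
noncomputable def rd (z : Ve l → Vec l) (j : Fin r) : Finset (Ve l) :=
  univ.filter fun w => ∃ i, bd L T j ≤ i ∧ i < bd L T (j + 1) ∧
    ρ (M.query (M.run (I z) i)) = some w

/-- The blocks in which a variable is read. -/
noncomputable def bl (z : Ve l → Vec l) (v : Ve l) : Finset (Fin r) :=
  blk (rd M I ρ L T r z) v

/-- The class of an input. -/
noncomputable def key (J : Finset (Fin r)) (z : Ve l → Vec l) :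
    (Fin (r + 1) → Z) × (Ve l → Fin (K + 2)) × (Ve l → Fin (K + 2)) :=
  (fun j => M.run (I z) (bd L T j),
    fun v => ⟨min (bl M I ρ L T r z v ∩ J).card (K + 1), by omega⟩,
    fun v => ⟨min (bl M I ρ L T r z v \ J).card (K + 1), by omega⟩)

/-- The weights of the variables. -/
noncomputable def wgt (J : Finset (Fin r)) (z : Ve l → Vec l) (v : Ve l) : ℝ := by
  classical
  exact if (bl M I ρ L T r z v).card ≤ K ∧
    (v.1 = false → bl M I ρ L T r z v ⊆ J) ∧ (v.1 = true → Disjoint (bl M I ρ L T r z v) J)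
  then 2 ^ (bl M I ρ L T r z v).card else 0

variable {M I ρ L T r K}

theorem wgt_bounds (J : Finset (Fin r)) (z : Ve l → Vec l) (v : Ve l) :
    0 ≤ wgt M I ρ L T r K J z v ∧ wgt M I ρ L T r K J z v ≤ 2 ^ K := by
  unfold wgt
  split_ifs with h
  · exact ⟨by positivity, pow_le_pow_right₀ (by norm_num) h.1⟩
  · exact ⟨le_refl _, by positivity⟩

theorem key_eq {J : Finset (Fin r)} {z z' : Ve l → Vec l}
    (h : key M I ρ L T r K J z = key M I ρ L T r K J z') :
    (∀ j : Fin (r + 1), M.run (I z) (bd L T j) = M.run (I z') (bd L T j)) ∧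
    (∀ v, min (bl M I ρ L T r z v ∩ J).card (K + 1) = min (bl M I ρ L T r z' v ∩ J).card (K + 1)) ∧
    (∀ v, min (bl M I ρ L T r z v \ J).card (K + 1) =
      min (bl M I ρ L T r z' v \ J).card (K + 1)) := by
  unfold key at h
  rw [Prod.mk.injEq, Prod.mk.injEq] at h
  refine ⟨fun j => congrFun h.1 j, fun v => ?_, fun v => ?_⟩
  · have := congrFun h.2.1 v
    rw [Fin.mk.injEq] at this
    exact this
  · have := congrFun h.2.2 v
    rw [Fin.mk.injEq] at this
    exact this

theorem key_of {J : Finset (Fin r)} {z z' : Ve l → Vec l}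
    (h1 : ∀ j : Fin (r + 1), M.run (I z) (bd L T j) = M.run (I z') (bd L T j))
    (h2 : ∀ v, min (bl M I ρ L T r z v ∩ J).card (K + 1) =
      min (bl M I ρ L T r z' v ∩ J).card (K + 1))
    (h3 : ∀ v, min (bl M I ρ L T r z v \ J).card (K + 1) =
      min (bl M I ρ L T r z' v \ J).card (K + 1)) :
    key M I ρ L T r K J z = key M I ρ L T r K J z' := by
  unfold key
  rw [Prod.mk.injEq, Prod.mk.injEq]
  refine ⟨funext h1, funext fun v => ?_, funext fun v => ?_⟩
  · rw [Fin.mk.injEq]
    exact h2 v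
  · rw [Fin.mk.injEq]
    exact h3 v

theorem sdiff_eq_empty_of_key {J : Finset (Fin r)} {z z' : Ve l → Vec l}
    (h : key M I ρ L T r K J z = key M I ρ L T r K J z') (v : Ve l) :
    bl M I ρ L T r z v ⊆ J ↔ bl M I ρ L T r z' v ⊆ J := by
  have h1 := (key_eq h).2.2 v
  rw [← Finset.sdiff_eq_empty_iff_subset, ← Finset.sdiff_eq_empty_iff_subset,
    ← Finset.card_eq_zero, ← Finset.card_eq_zero]
  omega

theorem disjoint_of_key {J : Finset (Fin r)} {z z' : Ve l → Vec l}
    (h : key M I ρ L T r K J z = key M I ρ L T r K J z') (v : Ve l) :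
    Disjoint (bl M I ρ L T r z v) J ↔ Disjoint (bl M I ρ L T r z' v) J := by
  have h1 := (key_eq h).2.1 v
  rw [Finset.disjoint_iff_inter_eq_empty, Finset.disjoint_iff_inter_eq_empty,
    ← Finset.card_eq_zero, ← Finset.card_eq_zero]
  omega

theorem wgt_of_key {J : Finset (Fin r)} {z z' : Ve l → Vec l}
    (h : key M I ρ L T r K J z = key M I ρ L T r K J z') :
    wgt M I ρ L T r K J z = wgt M I ρ L T r K J z' := by
  classical
  funext v
  have h1 := (key_eq h).2.1 v
  have h2 := (key_eq h).2.2 v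
  have h3 := sdiff_eq_empty_of_key h v
  have h4 := disjoint_of_key h v
  have c1 := Finset.card_inter_add_card_sdiff (bl M I ρ L T r z v) J
  have c2 := Finset.card_inter_add_card_sdiff (bl M I ρ L T r z' v) J
  unfold wgt
  have key1 : ((bl M I ρ L T r z v).card ≤ K ∧
      (v.1 = false → bl M I ρ L T r z v ⊆ J) ∧ (v.1 = true → Disjoint (bl M I ρ L T r z v) J)) →
      (bl M I ρ L T r z' v).card = (bl M I ρ L T r z v).card := by
    rintro ⟨a1, a2, a3⟩
    omega
  have key2 : ((bl M I ρ L T r z' v).card ≤ K ∧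
      (v.1 = false → bl M I ρ L T r z' v ⊆ J) ∧
      (v.1 = true → Disjoint (bl M I ρ L T r z' v) J)) →
      (bl M I ρ L T r z v).card = (bl M I ρ L T r z' v).card := by
    rintro ⟨a1, a2, a3⟩
    omega
  by_cases hc : (bl M I ρ L T r z v).card ≤ K ∧
      (v.1 = false → bl M I ρ L T r z v ⊆ J) ∧ (v.1 = true → Disjoint (bl M I ρ L T r z v) J)
  · have hc' : (bl M I ρ L T r z' v).card ≤ K ∧
      (v.1 = false → bl M I ρ L T r z' v ⊆ J) ∧
      (v.1 = true → Disjoint (bl M I ρ L T r z' v) J) := by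
      refine ⟨by rw [key1 hc]; exact hc.1, fun a => h3.mp (hc.2.1 a), fun a => h4.mp (hc.2.2 a)⟩
    rw [if_pos hc, if_pos hc', key1 hc]
  · have hc' : ¬ ((bl M I ρ L T r z' v).card ≤ K ∧
      (v.1 = false → bl M I ρ L T r z' v ⊆ J) ∧
      (v.1 = true → Disjoint (bl M I ρ L T r z' v) J)) := by
      intro hcon
      apply hc
      refine ⟨by rw [key2 hcon]; exact hcon.1, fun a => h3.mpr (hcon.2.1 a),
        fun a => h4.mpr (hcon.2.2 a)⟩
    rw [if_neg hc, if_neg hc']

/-- Equal reads in a block. -/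
theorem run_block (hI : ∀ z z' c, (∀ v, ρ c = some v → z v = z' v) → I z c = I z' c)
    {z z₁ : Ve l → Vec l} {j : Fin r} (h0 : M.run (I z) (bd L T j) = M.run (I z₁) (bd L T j))
    (h : ∀ w ∈ rd M I ρ L T r z₁ j, z w = z₁ w) :
    (∀ i, bd L T j ≤ i → i ≤ bd L T (j + 1) → M.run (I z) i = M.run (I z₁) i) ∧
      rd M I ρ L T r z j = rd M I ρ L T r z₁ j := by
  classical
  have key : ∀ i, bd L T j ≤ i → i ≤ bd L T (j + 1) → M.run (I z) i = M.run (I z₁) i := by
    intro i hi
    induction i, hi using Nat.le_induction with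
    | base => exact fun _ => h0
    | succ i hi ih =>
      intro hi2
      have h1 := ih (by omega)
      have h2 : I z (M.query (M.run (I z₁) i)) = I z₁ (M.query (M.run (I z₁) i)) := by
        refine hI _ _ _ fun v hv => h v ?_
        unfold rd
        rw [Finset.mem_filter]
        exact ⟨Finset.mem_univ _, i, hi, by omega, hv⟩
      change M.next (M.run (I z) i) (I z (M.query (M.run (I z) i))) =
        M.next (M.run (I z₁) i) (I z₁ (M.query (M.run (I z₁) i)))
      rw [h1, h2]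
  refine ⟨key, ?_⟩
  unfold rd
  ext w
  rw [Finset.mem_filter, Finset.mem_filter]
  constructor
  · rintro ⟨_, i, h1, h2, h3⟩
    rw [key i h1 h2.le] at h3
    exact ⟨Finset.mem_univ _, i, h1, h2, h3⟩
  · rintro ⟨_, i, h1, h2, h3⟩
    rw [← key i h1 h2.le] at h3
    exact ⟨Finset.mem_univ _, i, h1, h2, h3⟩

/-- **Cut and paste.** -/
theorem key_mix (hI : ∀ z z' c, (∀ v, ρ c = some v → z v = z' v) → I z c = I z' c)
    {J : Finset (Fin r)} {z z' : Ve l → Vec l} (A B : Finset (Ve l))
    (h : key M I ρ L T r K J z = key M I ρ L T r K J z')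
    (hA : ∀ v ∈ A, bl M I ρ L T r z' v ⊆ J) (hB : ∀ v ∈ B, Disjoint (bl M I ρ L T r z v) J)
    (hag : ∀ v, v ∉ A → v ∉ B → z v = z' v) :
    key M I ρ L T r K J (mix B z z') = key M I ρ L T r K J z := by
  obtain ⟨k1, k2, k3⟩ := key_eq h
  -- the blocks
  have hmem : ∀ (z₁ : Ve l → Vec l) (j : Fin r) (w : Ve l), w ∈ rd M I ρ L T r z₁ j →
      j ∈ bl M I ρ L T r z₁ w := by
    intro z₁ j w hw
    unfold bl blk
    rw [Finset.mem_filter]
    exact ⟨Finset.mem_univ _, hw⟩
  have inJ : ∀ j : Fin r, j ∈ J → M.run (I (mix B z z')) (bd L T j) = M.run (I z) (bd L T j) →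
      (∀ i, bd L T j ≤ i → i ≤ bd L T (j + 1) →
        M.run (I (mix B z z')) i = M.run (I z) i) ∧
      rd M I ρ L T r (mix B z z') j = rd M I ρ L T r z j := by
    intro j hj h0
    refine run_block hI h0 fun w hw => ?_
    have : w ∉ B := fun hwB => Finset.disjoint_left.mp (hB w hwB) (hmem z j w hw) hj
    simp only [mix, if_neg this]
  have outJ : ∀ j : Fin r, j ∉ J → M.run (I (mix B z z')) (bd L T j) = M.run (I z') (bd L T j) →
      (∀ i, bd L T j ≤ i → i ≤ bd L T (j + 1) →
        M.run (I (mix B z z')) i = M.run (I z') i) ∧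
      rd M I ρ L T r (mix B z z') j = rd M I ρ L T r z' j := by
    intro j hj h0
    refine run_block hI h0 fun w hw => ?_
    have hwA : w ∉ A := fun hwA => hj (hA w hwA (hmem z' j w hw))
    by_cases hwB : w ∈ B
    · simp only [mix, if_pos hwB]
    · simp only [mix, if_neg hwB]
      exact hag w hwA hwB
  have hβ : ∀ j : Fin (r + 1), M.run (I (mix B z z')) (bd L T j) = M.run (I z) (bd L T j) := by
    intro j
    induction j using Fin.induction with
    | zero =>
      have : bd L T ((0 : Fin (r + 1)) : ℕ) = 0 := by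
        unfold bd
        simp
      rw [this]
      rfl
    | succ j ih =>
      have e1 : ((j.castSucc : Fin (r + 1)) : ℕ) = (j : ℕ) := rfl
      have e2 : ((j.succ : Fin (r + 1)) : ℕ) = (j : ℕ) + 1 := rfl
      have hle : bd L T j ≤ bd L T (j + 1) := by
        unfold bd
        exact min_le_min_right T (Nat.mul_le_mul_right L (Nat.le_succ _))
      rw [e1] at ih
      rw [e2]
      by_cases hj : j ∈ J
      · exact (inJ j hj ih).1 _ hle (le_refl _)
      · have h1 := k1 j.castSucc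
        rw [e1] at h1
        have h2 := k1 j.succ
        rw [e2] at h2
        rw [h2]
        exact (outJ j hj (ih.trans h1)).1 _ hle (le_refl _)
  have hβ' : ∀ j : Fin r, M.run (I (mix B z z')) (bd L T j) = M.run (I z) (bd L T j) :=
    fun j => hβ j.castSucc
  have hβ'' : ∀ j : Fin r, M.run (I (mix B z z')) (bd L T j) = M.run (I z') (bd L T j) :=
    fun j => (hβ j.castSucc).trans (k1 j.castSucc)
  have hin : ∀ v, bl M I ρ L T r (mix B z z') v ∩ J = bl M I ρ L T r z v ∩ J := by
    intro v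
    ext j
    rw [Finset.mem_inter, Finset.mem_inter]
    constructor
    · rintro ⟨h1, h2⟩
      refine ⟨?_, h2⟩
      unfold bl blk at h1 ⊢
      rw [Finset.mem_filter] at h1 ⊢
      rw [(inJ j h2 (hβ' j)).2] at h1
      exact h1
    · rintro ⟨h1, h2⟩
      refine ⟨?_, h2⟩
      unfold bl blk at h1 ⊢
      rw [Finset.mem_filter] at h1 ⊢
      rw [(inJ j h2 (hβ' j)).2]
      exact h1
  have hout : ∀ v, bl M I ρ L T r (mix B z z') v \ J = bl M I ρ L T r z' v \ J := by
    intro v
    ext j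
    rw [Finset.mem_sdiff, Finset.mem_sdiff]
    constructor
    · rintro ⟨h1, h2⟩
      refine ⟨?_, h2⟩
      unfold bl blk at h1 ⊢
      rw [Finset.mem_filter] at h1 ⊢
      rw [(outJ j h2 (hβ'' j)).2] at h1
      exact h1
    · rintro ⟨h1, h2⟩
      refine ⟨?_, h2⟩
      unfold bl blk at h1 ⊢
      rw [Finset.mem_filter] at h1 ⊢
      rw [(outJ j h2 (hβ'' j)).2]
      exact h1
  refine key_of hβ (fun v => by rw [hin v]) fun v => ?_
  rw [hout v]
  exact (k3 v).symm

end runs

end Pool.Agent.K1H36.TB
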