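import Pool.Agent.K1H36.TB.Run

/-!
# The average over the choices of the blocks
-/

set_option autoImplicit false

open Finset

namespace Pool.Agent.K1H36.TB

open Pool.Agent.K1H36.TS

section good

variable {F : Type} [Fintype F] [DecidableEq F] {r : ℕ}

/-- The pairs of variables which are read in at most `K` blocks and never in the same block. -/
def good (K : ℕ) (R : Fin r → Finset (Bool × F × F)) : Finset (F × F × F) :=
  univ.filter fun x => (blk R (false, x.1, x.2.1)).card ≤ K ∧ (blk R (true, x.1, x.2.2)).card ≤ K ∧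
      Disjoint (blk R (false, x.1, x.2.1)) (blk R (true, x.1, x.2.2))

/-- **Most pairs are good.** -/
theorem card_good {k L : ℕ} (hk : 0 < k) (R : Fin r → Finset (Bool × F × F))
    (hR : ∀ j, (R j).card ≤ L) (hr : r * L ≤ 2 * k * Fintype.card F ^ 2)
    (hL : 32 * k * L ≤ Fintype.card F) :
    7 * Fintype.card F ^ 3 ≤ 8 * (good (32 * k) R).card := by
  classical
  set l := Fintype.card F with hl
  set P := good (32 * k) R with hP
  set H : Finset (Bool × F × F) := univ.filter fun v => 32 * k < (blk R v).card with hH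
  have heavy : 16 * H.card ≤ l ^ 2 := by
    have h1 : H.card * (32 * k) ≤ ∑ v, (blk R v).card := by
      calc H.card * (32 * k) = ∑ v ∈ H, 32 * k := by rw [Finset.sum_const, smul_eq_mul]
        _ ≤ ∑ v ∈ H, (blk R v).card :=
            Finset.sum_le_sum fun v hv => (Finset.mem_filter.mp hv).2.le
        _ ≤ ∑ v, (blk R v).card :=
            Finset.sum_le_sum_of_subset_of_nonneg (Finset.subset_univ _) fun _ _ _ => Nat.zero_le _
    have h2 : ∑ v, (blk R v).card ≤ r * L := by
      rw [sum_blk]
      calc ∑ j, (R j).card ≤ ∑ _j : Fin r, L := Finset.sum_le_sum fun j _ => hR j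
        _ = r * L := by rw [Finset.sum_const, Finset.card_univ, Fintype.card_fin, smul_eq_mul]
    have h3 : H.card * (32 * k) ≤ 2 * k * l ^ 2 := h1.trans (h2.trans hr)
    have h4 : (16 * H.card) * (2 * k) ≤ l ^ 2 * (2 * k) := by
      calc (16 * H.card) * (2 * k) = H.card * (32 * k) := by ring
        _ ≤ 2 * k * l ^ 2 := h3
        _ = l ^ 2 * (2 * k) := by ring
    exact Nat.le_of_mul_le_mul_right h4 (by omega)
  have bad : 8 * (univ \ P : Finset (F × F × F)).card ≤ l ^ 3 := by
    set B1 : Finset (F × F × F) := univ.filter fun x => (false, x.1, x.2.1) ∈ H with hB1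
    set B2 : Finset (F × F × F) := univ.filter fun x => (true, x.1, x.2.2) ∈ H with hB2
    set B3 : Finset (F × F × F) := (univ : Finset (Fin r)).biUnion fun j =>
      univ.filter fun x => (false, x.1, x.2.1) ∈ R j ∧ (true, x.1, x.2.2) ∈ R j with hB3
    have hsub : (univ \ P : Finset (F × F × F)) ⊆ B1 ∪ B2 ∪ B3 := by
      intro x hx
      rw [Finset.mem_sdiff] at hx
      by_contra hcon
      rw [Finset.mem_union, Finset.mem_union] at hcon
      push Not at hcon
      obtain ⟨⟨c1, c2⟩, c3⟩ := hcon
      apply hx.2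
      rw [hP, good, Finset.mem_filter]
      refine ⟨Finset.mem_univ _, ?_, ?_, ?_⟩
      · by_contra h
        push Not at h
        exact c1 (by rw [hB1, Finset.mem_filter, hH, Finset.mem_filter]; exact ⟨Finset.mem_univ _, Finset.mem_univ _, h⟩)
      · by_contra h
        push Not at h
        exact c2 (by rw [hB2, Finset.mem_filter, hH, Finset.mem_filter]; exact ⟨Finset.mem_univ _, Finset.mem_univ _, h⟩)
      · rw [Finset.disjoint_left]
        intro j hj1 hj2
        apply c3
        rw [hB3, Finset.mem_biUnion]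
        refine ⟨j, Finset.mem_univ _, ?_⟩
        rw [Finset.mem_filter]
        exact ⟨Finset.mem_univ _, (Finset.mem_filter.mp hj1).2, (Finset.mem_filter.mp hj2).2⟩
    have hB12 : B1.card + B2.card ≤ H.card * l := by
      have e1 : B1.card ≤ (H.filter fun v => v.1 = false).card * l := by
        rw [hl, ← Finset.card_univ, ← Finset.card_product]
        refine Finset.card_le_card_of_injOn (fun x => ((false, x.1, x.2.1), x.2.2)) ?_ ?_
        · intro x hx
          have hx' : (false, x.1, x.2.1) ∈ H := (Finset.mem_filter.mp hx).2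
          rw [Finset.mem_coe, Finset.mem_product]
          exact ⟨Finset.mem_filter.mpr ⟨hx', rfl⟩, Finset.mem_univ _⟩
        · intro x _ y _ hxy
          simp only [Prod.mk.injEq, true_and] at hxy
          exact Prod.ext hxy.1.1 (Prod.ext hxy.1.2 hxy.2)
      have e2 : B2.card ≤ (H.filter fun v => ¬ v.1 = false).card * l := by
        rw [hl, ← Finset.card_univ, ← Finset.card_product]
        refine Finset.card_le_card_of_injOn (fun x => ((true, x.1, x.2.2), x.2.1)) ?_ ?_
        · intro x hx
          have hx' : (true, x.1, x.2.2) ∈ H := (Finset.mem_filter.mp hx).2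
          rw [Finset.mem_coe, Finset.mem_product]
          exact ⟨Finset.mem_filter.mpr ⟨hx', by simp⟩, Finset.mem_univ _⟩
        · intro x _ y _ hxy
          simp only [Prod.mk.injEq, true_and] at hxy
          exact Prod.ext hxy.1.1 (Prod.ext hxy.2 hxy.1.2)
      have e3 := Finset.card_filter_add_card_filter_not (s := H) (fun v => v.1 = false)
      calc B1.card + B2.card ≤ (H.filter fun v => v.1 = false).card * l +
            (H.filter fun v => ¬ v.1 = false).card * l := Nat.add_le_add e1 e2
        _ = ((H.filter fun v => v.1 = false).card + (H.filter fun v => ¬ v.1 = false).card) * l := by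
            ring
        _ = H.card * l := by rw [e3]
    have hB3c : B3.card ≤ r * (L * L) := by
      calc B3.card ≤ ∑ j : Fin r, (univ.filter fun x : F × F × F =>
            (false, x.1, x.2.1) ∈ R j ∧ (true, x.1, x.2.2) ∈ R j).card := Finset.card_biUnion_le
        _ ≤ ∑ _j : Fin r, L * L := by
            refine Finset.sum_le_sum fun j _ => ?_
            calc (univ.filter fun x : F × F × F =>
                (false, x.1, x.2.1) ∈ R j ∧ (true, x.1, x.2.2) ∈ R j).card
                ≤ (R j ×ˢ R j).card := by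
                  refine Finset.card_le_card_of_injOn
                    (fun x => ((false, x.1, x.2.1), (true, x.1, x.2.2))) ?_ ?_
                  · intro x hx
                    have := (Finset.mem_filter.mp hx).2
                    rw [Finset.mem_coe, Finset.mem_product]
                    exact this
                  · intro x _ y _ hxy
                    simp only [Prod.mk.injEq, true_and] at hxy
                    exact Prod.ext hxy.1.1 (Prod.ext hxy.1.2 hxy.2.2)
              _ = (R j).card * (R j).card := Finset.card_product _ _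
              _ ≤ L * L := Nat.mul_le_mul (hR j) (hR j)
        _ = r * (L * L) := by
            rw [Finset.sum_const, Finset.card_univ, Fintype.card_fin, smul_eq_mul]
    have h5 : 16 * (r * (L * L)) ≤ l ^ 3 := by
      have h6 : (16 * (r * (L * L))) ≤ l ^ 2 * (32 * k * L) := by
        calc 16 * (r * (L * L)) = 16 * ((r * L) * L) := by ring
          _ ≤ 16 * ((2 * k * l ^ 2) * L) := by gcongr
          _ = l ^ 2 * (32 * k * L) := by ring
      calc 16 * (r * (L * L)) ≤ l ^ 2 * (32 * k * L) := h6
        _ ≤ l ^ 2 * l := by gcongr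
        _ = l ^ 3 := by ring
    have h7 : 16 * (H.card * l) ≤ l ^ 3 := by
      calc 16 * (H.card * l) = (16 * H.card) * l := by ring
        _ ≤ l ^ 2 * l := by gcongr
        _ = l ^ 3 := by ring
    have h8 : (univ \ P : Finset (F × F × F)).card ≤ B1.card + B2.card + B3.card := by
      calc _ ≤ (B1 ∪ B2 ∪ B3).card := Finset.card_le_card hsub
        _ ≤ (B1 ∪ B2).card + B3.card := Finset.card_union_le _ _
        _ ≤ B1.card + B2.card + B3.card := Nat.add_le_add_right (Finset.card_union_le _ _) _
    omega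
  have h1 : (univ \ P : Finset (F × F × F)).card + P.card = l ^ 3 := by
    rw [Finset.card_sdiff_add_card_eq_card (Finset.subset_univ P), Finset.card_univ,
      Fintype.card_prod, Fintype.card_prod, ← hl]
    ring
  omega

end good

section average

variable {l : ℕ} [Fact l.Prime] {ι X Z : Type} {M : DProg ι X Z}
  {I : (Ve l → Vec l) → ι → X} {ρ : ι → Option (Ve l)} {L T r K : ℕ}

open Classical in
/-- The average of the weights. -/
theorem sum_wgt (z : Ve l → Vec l) (q p t : ZMod l) :
    ∑ J, wgt M I ρ L T r K J z (false, q, p) * wgt M I ρ L T r K J z (true, q, t) =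
      if (q, p, t) ∈ good K (rd M I ρ L T r z) then 2 ^ r else 0 := by
  obtain ⟨a, ha⟩ : ∃ a, a = bl M I ρ L T r z (false, q, p) := ⟨_, rfl⟩
  obtain ⟨b, hb⟩ : ∃ b, b = bl M I ρ L T r z (true, q, t) := ⟨_, rfl⟩
  have hg : (q, p, t) ∈ good K (rd M I ρ L T r z) ↔ a.card ≤ K ∧ b.card ≤ K ∧ Disjoint a b := by
    rw [ha, hb]
    unfold good bl
    rw [Finset.mem_filter]
    simp
  have h1 : ∀ J, wgt M I ρ L T r K J z (false, q, p) * wgt M I ρ L T r K J z (true, q, t) =
      if a.card ≤ K ∧ b.card ≤ K then (if a ⊆ J ∧ Disjoint b J then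
        (2 : ℝ) ^ (a.card + b.card) else 0) else 0 := by
    intro J
    unfold wgt
    rw [← ha, ← hb]
    simp only [forall_const, Bool.false_eq_true, Bool.true_eq_false, false_implies, and_true,
      true_and]
    by_cases c1 : a.card ≤ K
    · by_cases c2 : b.card ≤ K
      · by_cases c3 : a ⊆ J
        · by_cases c4 : Disjoint b J
          · simp only [c1, c2, c3, c4, and_self, if_true, pow_add]
          · simp only [c1, c2, c3, c4, and_false, and_self, if_true, if_false, mul_zero]
        · simp only [c1, c2, c3, and_false, false_and, and_self, if_true, if_false, zero_mul]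
      · simp only [c1, c2, false_and, and_false, if_false, mul_zero]
    · simp only [c1, false_and, if_false, zero_mul]
  simp_rw [h1]
  by_cases hc : a.card ≤ K ∧ b.card ≤ K
  · simp only [hc, and_self, if_true]
    by_cases hd : Disjoint a b
    · rw [if_pos (hg.mpr ⟨hc.1, hc.2, hd⟩), ← Finset.sum_filter, Finset.sum_const, nsmul_eq_mul]
      exact_mod_cast card_between a b hd
    · rw [if_neg (fun h => hd (hg.mp h).2.2)]
      refine Finset.sum_eq_zero fun J _ => ?_
      rw [if_neg]
      rintro ⟨h2, h3⟩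
      exact hd (Finset.disjoint_of_subset_left h2 h3.symm)
  · rw [if_neg (fun h => hc ⟨(hg.mp h).1, (hg.mp h).2.1⟩)]
    simp only [hc, if_false, Finset.sum_const_zero]

theorem card_rd (z : Ve l → Vec l) (j : Fin r) : (rd M I ρ L T r z j).card ≤ L := by
  classical
  have h1 : rd M I ρ L T r z j ⊆ (Finset.Ico (bd L T j) (bd L T (j + 1))).image
      (fun i => (ρ (M.query (M.run (I z) i))).getD (false, 0, 0)) := by
    intro w hw
    unfold rd at hw
    obtain ⟨i, h1, h2, h3⟩ := (Finset.mem_filter.mp hw).2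
    rw [Finset.mem_image]
    refine ⟨i, Finset.mem_Ico.mpr ⟨h1, h2⟩, ?_⟩
    rw [h3]
    rfl
  calc (rd M I ρ L T r z j).card ≤ _ := Finset.card_le_card h1
    _ ≤ (Finset.Ico (bd L T j) (bd L T (j + 1))).card := Finset.card_image_le
    _ ≤ L := by
      rw [Nat.card_Ico]
      unfold bd
      rw [Nat.add_mul, one_mul]
      omega

/-- The inputs for which the answer is no. -/
noncomputable def noSet (M : DProg ι X Z) (I : (Ve l → Vec l) → ι → X) (D : Finset (Vec l))
    (T : ℕ) : Finset (Ve l → Vec l) := by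
  classical
  exact (Fintype.piFinset fun _ => D).filter fun z => ¬ M.Says (I z) T

theorem mem_noSet {D : Finset (Vec l)} {z : Ve l → Vec l} :
    z ∈ noSet M I D T ↔ (∀ v, z v ∈ D) ∧ ¬ M.Says (I z) T := by
  classical
  unfold noSet
  rw [Finset.mem_filter, Fintype.mem_piFinset]

/-- The zero triangles of the elements of a set. -/
theorem zeros_eq (u : Ve l → ℝ) (C : Finset (Ve l → Vec l)) :
    zeros u C = ∑ z ∈ C, ∑ q, ∑ p, ∑ t, u (false, q, p) * u (true, q, t) *
      (if z (false, q, p) + z (true, q, t) = tgt p t then 1 else 0) := by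
  unfold zeros
  symm
  rw [Finset.sum_comm]
  refine Finset.sum_congr rfl fun q _ => ?_
  rw [Finset.sum_comm]
  refine Finset.sum_congr rfl fun p _ => ?_
  rw [Finset.sum_comm]
  refine Finset.sum_congr rfl fun t _ => ?_
  rw [← Finset.mul_sum]
  congr 1
  rw [Finset.card_filter]
  push_cast
  rfl

/-- **One program.** -/
theorem program_ineq [Fintype Z]
    (hI : ∀ z z' c, (∀ v, ρ c = some v → z v = z' v) → I z c = I z' c)
    {τ : ℝ} {s e b k : ℕ} (hk : 0 < k) (hK : K = 32 * k) (hτ : 0 ≤ τ) (D : Finset (Vec l))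
    (hs : (2 : ℝ) ^ (32 * s) ≤ τ * D.card) (hb : e + 5 < (s - 1) * (b + 1))
    (hT : T ≤ r * L) (hr : r * L ≤ 2 * k * l ^ 2) (hL : 32 * k * L ≤ l) :
    ((noSet M I D T).card : ℝ) * ((15 / 16) ^ 2 * (7 / 8) / l - (2 ^ K) ^ 2 * l * b / (l : ℝ) ^ 4 -
      2 * √ (l : ℝ) * ((l : ℝ) ^ 2 * (2 ^ K) ^ 2 * τ)) -
      ((Fintype.card Z : ℝ) ^ (r + 1) * ((K : ℝ) + 2) ^ (4 * l ^ 2)) *
        ((2 ^ K) ^ 2 / l * ((D.card : ℝ) ^ (2 * l ^ 2) / 2 ^ e)) ≤
      zeros (fun _ => 1) (noSet M I D T) := by
  classical
  have hlpos : (0 : ℝ) < l := by exact_mod_cast (Fact.out : l.Prime).pos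
  obtain ⟨N, hN⟩ : ∃ N, N = noSet M I D T := ⟨_, rfl⟩
  rw [← hN]
  obtain ⟨E, hE⟩ : ∃ E : ℝ, E = (2 ^ K) ^ 2 * l * b / (l : ℝ) ^ 4 +
    2 * √ (l : ℝ) * ((l : ℝ) ^ 2 * (2 ^ K) ^ 2 * τ) := ⟨_, rfl⟩
  obtain ⟨G, hG⟩ : ∃ G : ℝ, G = (2 ^ K) ^ 2 / l * ((D.card : ℝ) ^ (2 * l ^ 2) / 2 ^ e) := ⟨_, rfl⟩
  rw [← hG]
  set Ψ : Finset (Fin r) → (Ve l → Vec l) → ℝ := fun J z => ∑ q, ∑ p, ∑ t,
    wgt M I ρ L T r K J z (false, q, p) * wgt M I ρ L T r K J z (true, q, t) *
      (if z (false, q, p) + z (true, q, t) = tgt p t then 1 else 0) with hΨ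
  set Φ : Finset (Fin r) → (Ve l → Vec l) → ℝ := fun J z =>
    (15 / 16) ^ 2 * pairs (wgt M I ρ L T r K J z) / (l : ℝ) ^ 4 - E with hΦ
  have hbdr : bd L T r = T := by
    unfold bd
    exact Nat.min_eq_right hT
  -- one class
  have hclass : ∀ (J : Finset (Fin r)) (κ : (Fin (r + 1) → Z) × (Ve l → Fin (K + 2)) ×
      (Ve l → Fin (K + 2))), ∑ z ∈ N.filter (fun z => key M I ρ L T r K J z = κ), Φ J z - G ≤
      ∑ z ∈ N.filter (fun z => key M I ρ L T r K J z = κ), Ψ J z := by
    intro J κ
    have hG0 : 0 ≤ G := by rw [hG]; positivity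
    rcases (N.filter (fun z => key M I ρ L T r K J z = κ)).eq_empty_or_nonempty with h0 | ⟨z₀, hz₀⟩
    · rw [h0, Finset.sum_empty, Finset.sum_empty]
      linarith
    · set C := N.filter (fun z => key M I ρ L T r K J z = κ) with hC
      have hkey₀ := (Finset.mem_filter.mp hz₀).2
      have hkey : ∀ z ∈ C, key M I ρ L T r K J z = key M I ρ L T r K J z₀ := by
        intro z hz
        rw [(Finset.mem_filter.mp hz).2, hkey₀]
      obtain ⟨u, hu⟩ : ∃ u, u = wgt M I ρ L T r K J z₀ := ⟨_, rfl⟩
      have hwu : ∀ z ∈ C, wgt M I ρ L T r K J z = u := by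
        intro z hz
        rw [hu]
        exact wgt_of_key (hkey z hz)
      have hci := class_ineq (u := u) (U := 2 ^ K) hτ (by positivity) D hs hb C
        (fun z hz => by
          have h1 := (Finset.mem_filter.mp hz).1
          rw [hN, mem_noSet] at h1
          exact h1.1)
        (univ.filter fun v => v.1 = false ∧ bl M I ρ L T r z₀ v ⊆ J)
        (univ.filter fun v => v.1 = true ∧ Disjoint (bl M I ρ L T r z₀ v) J)
        (by
          rw [Finset.disjoint_left]
          intro v h1 h2
          have e1 := (Finset.mem_filter.mp h1).2.1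
          have e2 := (Finset.mem_filter.mp h2).2.1
          rw [e1] at e2
          exact Bool.false_ne_true e2)
        (by
          intro z hz z' hz' hag
          have hk1 := key_mix hI (z := z) (z' := z')
            (univ.filter fun v => v.1 = false ∧ bl M I ρ L T r z₀ v ⊆ J)
            (univ.filter fun v => v.1 = true ∧ Disjoint (bl M I ρ L T r z₀ v) J)
            ((hkey z hz).trans (hkey z' hz').symm)
            (fun v hv => (sdiff_eq_empty_of_key (hkey z' hz') v).mpr (Finset.mem_filter.mp hv).2.2)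
            (fun v hv => (disjoint_of_key (hkey z hz) v).mpr (Finset.mem_filter.mp hv).2.2) hag
          have hzN := (Finset.mem_filter.mp hz).1
          have hzN' := (Finset.mem_filter.mp hz').1
          rw [hN, mem_noSet] at hzN hzN'
          rw [hC, Finset.mem_filter]
          refine ⟨?_, hk1.trans (Finset.mem_filter.mp hz).2⟩
          rw [hN, mem_noSet]
          refine ⟨?_, ?_⟩
          · intro v
            unfold mix
            split_ifs
            · exact hzN'.1 v
            · exact hzN.1 v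
          · have h1 := (key_eq hk1).1 (Fin.last r)
            rw [Fin.val_last, hbdr] at h1
            unfold DProg.Says
            rw [h1]
            exact hzN.2)
        (fun v => by rw [hu]; exact wgt_bounds J z₀ v)
        (fun q p h => by
          rw [Finset.mem_filter]
          refine ⟨Finset.mem_univ _, rfl, ?_⟩
          rw [hu] at h
          unfold wgt at h
          by_contra hcon
          apply h
          rw [if_neg]
          rintro ⟨_, h2, _⟩
          exact hcon (h2 rfl))
        (fun q p h => by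
          rw [Finset.mem_filter]
          refine ⟨Finset.mem_univ _, rfl, ?_⟩
          rw [hu] at h
          unfold wgt at h
          by_contra hcon
          apply h
          rw [if_neg]
          rintro ⟨_, _, h2⟩
          exact hcon (h2 rfl))
      have e1 : ∑ z ∈ C, Φ J z = (C.card : ℝ) * ((15 / 16) ^ 2 * pairs u / (l : ℝ) ^ 4 - E) := by
        rw [← nsmul_eq_mul, ← Finset.sum_const]
        refine Finset.sum_congr rfl fun z hz => ?_
        rw [hΦ]
        simp only
        rw [hwu z hz]
      have e2 : ∑ z ∈ C, Ψ J z = zeros u C := by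
        rw [zeros_eq]
        refine Finset.sum_congr rfl fun z hz => ?_
        rw [hΨ]
        simp only
        rw [hwu z hz]
      rw [e1, e2, hG, hE]
      refine le_trans (le_of_eq ?_) hci
      ring
  -- one choice of the blocks
  have hJ : ∀ J : Finset (Fin r), ∑ z ∈ N, Φ J z -
      ((Fintype.card Z : ℝ) ^ (r + 1) * ((K : ℝ) + 2) ^ (4 * l ^ 2)) * G ≤ ∑ z ∈ N, Ψ J z := by
    intro J
    have h1 := Finset.sum_le_sum fun κ (_ : κ ∈ (univ : Finset ((Fin (r + 1) → Z) ×
      (Ve l → Fin (K + 2)) × (Ve l → Fin (K + 2))))) => hclass J κ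
    have f1 : ∑ κ, ∑ z ∈ N.filter (fun z => key M I ρ L T r K J z = κ), Φ J z =
        ∑ z ∈ N, Φ J z := Finset.sum_fiberwise N (fun z => key M I ρ L T r K J z) (Φ J)
    have f2 : ∑ κ, ∑ z ∈ N.filter (fun z => key M I ρ L T r K J z = κ), Ψ J z =
        ∑ z ∈ N, Ψ J z := Finset.sum_fiberwise N (fun z => key M I ρ L T r K J z) (Ψ J)
    rw [Finset.sum_sub_distrib, f1, f2, Finset.sum_const,
      nsmul_eq_mul, Finset.card_univ, Fintype.card_prod, Fintype.card_prod, Fintype.card_fun,
      Fintype.card_fun, Fintype.card_fin, Fintype.card_fin, Fintype.card_prod, Fintype.card_prod,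
      Fintype.card_bool, ZMod.card] at h1
    refine le_trans (le_of_eq ?_) h1
    push_cast
    rw [show 4 * l ^ 2 = 2 * (l * l) + 2 * (l * l) by ring, pow_add]
    ring
  -- the average
  have hsum := Finset.sum_le_sum fun J (_ : J ∈ (univ : Finset (Finset (Fin r)))) => hJ J
  rw [Finset.sum_sub_distrib, Finset.sum_const, nsmul_eq_mul, Finset.card_univ,
    Fintype.card_finset, Fintype.card_fin] at hsum
  have h2r : (0 : ℝ) < 2 ^ r := by positivity
  have hleft : (2 : ℝ) ^ r * ((N.card : ℝ) * ((15 / 16) ^ 2 * (7 / 8) / l - E)) ≤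
      ∑ J, ∑ z ∈ N, Φ J z := by
    rw [Finset.sum_comm]
    have h1 : ∀ z ∈ N, (2 : ℝ) ^ r * ((15 / 16) ^ 2 * (7 / 8) / l - E) ≤ ∑ J, Φ J z := by
      intro z _
      have h2 : ∑ J, pairs (wgt M I ρ L T r K J z) =
          2 ^ r * ((good K (rd M I ρ L T r z)).card : ℝ) := by
        unfold pairs
        rw [Finset.sum_comm]
        have h3 : ∀ q, ∑ J, (∑ p, wgt M I ρ L T r K J z (false, q, p)) *
            (∑ t, wgt M I ρ L T r K J z (true, q, t)) =
            ∑ p, ∑ t, if (q, p, t) ∈ good K (rd M I ρ L T r z) then (2 : ℝ) ^ r else 0 := by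
          intro q
          simp_rw [Finset.sum_mul_sum]
          rw [Finset.sum_comm]
          refine Finset.sum_congr rfl fun p _ => ?_
          rw [Finset.sum_comm]
          exact Finset.sum_congr rfl fun t _ => sum_wgt z q p t
        simp_rw [h3]
        have h4 : ∑ x : ZMod l × ZMod l × ZMod l,
            (if x ∈ good K (rd M I ρ L T r z) then (2 : ℝ) ^ r else 0) =
            2 ^ r * ((good K (rd M I ρ L T r z)).card : ℝ) := by
          rw [Finset.sum_ite_mem, Finset.univ_inter, Finset.sum_const, nsmul_eq_mul, mul_comm]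
        rw [← h4, Fintype.sum_prod_type]
        refine Finset.sum_congr rfl fun q _ => ?_
        rw [Fintype.sum_prod_type]
      have h3 := card_good hk (rd M I ρ L T r z) (card_rd z) (by rw [ZMod.card]; exact hr)
        (by rw [ZMod.card]; exact hL)
      rw [ZMod.card, ← hK] at h3
      have h4 : 7 * (l : ℝ) ^ 3 ≤ 8 * ((good K (rd M I ρ L T r z)).card : ℝ) := by exact_mod_cast h3
      rw [hΦ]
      simp only
      rw [Finset.sum_sub_distrib, Finset.sum_const, nsmul_eq_mul, Finset.card_univ,
        Fintype.card_finset, Fintype.card_fin, ← Finset.sum_div, ← Finset.mul_sum, h2]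
      push_cast
      have h5 : (15 / 16 : ℝ) ^ 2 * (7 / 8) / l ≤
          (15 / 16) ^ 2 * ((good K (rd M I ρ L T r z)).card : ℝ) / (l : ℝ) ^ 4 := by
        rw [div_le_div_iff₀ hlpos (by positivity)]
        have h6 : (7 / 8 : ℝ) * (l : ℝ) ^ 3 ≤ ((good K (rd M I ρ L T r z)).card : ℝ) := by linarith
        calc (15 / 16 : ℝ) ^ 2 * (7 / 8) * (l : ℝ) ^ 4
            = (15 / 16 : ℝ) ^ 2 * ((7 / 8) * (l : ℝ) ^ 3) * l := by ring
          _ ≤ (15 / 16 : ℝ) ^ 2 * ((good K (rd M I ρ L T r z)).card : ℝ) * l := by gcongr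
      calc (2 : ℝ) ^ r * ((15 / 16) ^ 2 * (7 / 8) / l - E)
          ≤ 2 ^ r * ((15 / 16) ^ 2 * ((good K (rd M I ρ L T r z)).card : ℝ) / (l : ℝ) ^ 4 - E) := by
            refine mul_le_mul_of_nonneg_left ?_ h2r.le
            linarith
        _ = _ := by ring
    calc (2 : ℝ) ^ r * ((N.card : ℝ) * ((15 / 16) ^ 2 * (7 / 8) / l - E))
        = ∑ _z ∈ N, (2 : ℝ) ^ r * ((15 / 16) ^ 2 * (7 / 8) / l - E) := by
          rw [Finset.sum_const, nsmul_eq_mul]
          ring
      _ ≤ _ := Finset.sum_le_sum h1
  have hright : ∑ J, ∑ z ∈ N, Ψ J z ≤ (2 : ℝ) ^ r * zeros (fun _ => 1) N := by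
    rw [Finset.sum_comm, zeros_eq, Finset.mul_sum]
    refine Finset.sum_le_sum fun z _ => ?_
    rw [hΨ]
    simp only
    rw [Finset.sum_comm, Finset.mul_sum]
    refine Finset.sum_le_sum fun q _ => ?_
    rw [Finset.sum_comm, Finset.mul_sum]
    refine Finset.sum_le_sum fun p _ => ?_
    rw [Finset.sum_comm, Finset.mul_sum]
    refine Finset.sum_le_sum fun t _ => ?_
    rw [← Finset.sum_mul, sum_wgt]
    have h3 : (0 : ℝ) ≤ if z (false, q, p) + z (true, q, t) = tgt p t then 1 else 0 := by
      split_ifs <;> norm_num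
    have h4 : (if (q, p, t) ∈ good K (rd M I ρ L T r z) then (2 : ℝ) ^ r else 0) ≤ 2 ^ r := by
      split_ifs
      · exact le_refl _
      · exact h2r.le
    calc _ ≤ (2 : ℝ) ^ r * (if z (false, q, p) + z (true, q, t) = tgt p t then 1 else 0) :=
          mul_le_mul_of_nonneg_right h4 h3
      _ = _ := by ring
  push_cast at hsum
  have hfin : (2 : ℝ) ^ r * ((N.card : ℝ) * ((15 / 16) ^ 2 * (7 / 8) / l - E) -
      ((Fintype.card Z : ℝ) ^ (r + 1) * ((K : ℝ) + 2) ^ (4 * l ^ 2)) * G) ≤
      (2 : ℝ) ^ r * zeros (fun _ => 1) N := by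
    calc _ = (2 : ℝ) ^ r * ((N.card : ℝ) * ((15 / 16) ^ 2 * (7 / 8) / l - E)) -
          2 ^ r * (((Fintype.card Z : ℝ) ^ (r + 1) * ((K : ℝ) + 2) ^ (4 * l ^ 2)) * G) := by ring
      _ ≤ ∑ J, ∑ z ∈ N, Φ J z -
          2 ^ r * (((Fintype.card Z : ℝ) ^ (r + 1) * ((K : ℝ) + 2) ^ (4 * l ^ 2)) * G) := by
          linarith
      _ ≤ ∑ J, ∑ z ∈ N, Ψ J z := hsum
      _ ≤ _ := hright
  have hfin2 := le_of_mul_le_mul_left hfin h2r
  refine le_trans (le_of_eq ?_) hfin2
  rw [hE]
  ring

end average

end Pool.Agent.K1H36.TB
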